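import Mathlib
import Pool.Agent.R750.CV.Main

/-! # Isolation of algebraic points among the forms bounded below -/

open NumberField Filter Topology Matrix

namespace Pool.Agent.K3h42.OC

open H715R2

variable {d : ℕ}

/-- the systems with given determinant and lower bound -/
def CSet (V ν : ℝ) : Set (Matrix (Fin d) (Fin d) ℝ) := {h | |h.det| = V ∧ HasNu h ν}

lemma CSet_closed (V ν : ℝ) : IsClosed (CSet (d := d) V ν) := by
  have h1 : IsClosed {h : Matrix (Fin d) (Fin d) ℝ | |h.det| = V} :=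
    isClosed_eq (continuous_det'.abs) continuous_const
  have h2 : IsClosed {h : Matrix (Fin d) (Fin d) ℝ | HasNu h ν} := by
    have h3 : {h : Matrix (Fin d) (Fin d) ℝ | HasNu h ν} =
        ⋂ m : Fin d → ℤ, ⋂ _ : m ≠ 0, {h | ν ≤ |FF h (iR m)|} := by
      ext h; simp [HasNu]
    rw [h3]
    exact isClosed_iInter fun m => isClosed_iInter fun _ =>
      isClosed_le continuous_const (continuous_FF (iR m)).abs
  exact h1.inter h2

lemma CSet_inv (V ν : ℝ) : H715R2.Inv (CSet (d := d) V ν) := by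
  rintro h ⟨h1, h2⟩ a γ ha0 ha1 hγ
  refine ⟨?_, fun m hm => ?_⟩
  · rw [det_mul, det_mul, det_diagonal, ha1, one_mul, abs_mul, det_zR, abs_det_of_isUnit hγ,
      mul_one, h1]
  · rw [FF_orb ha1]
    exact h2 _ (gamma_ne hγ hm)

lemma CSet_det_ne {V ν : ℝ} (hV : 0 < V) {h : Matrix (Fin d) (Fin d) ℝ} (hh : h ∈ CSet V ν) :
    h.det ≠ 0 := by
  intro h0
  have h1 := hh.1
  rw [h0, abs_zero] at h1
  exact hV.ne h1

lemma not_dense {ν : ℝ} (hd : 0 < d) (hν : 0 < ν) {h : Matrix (Fin d) (Fin d) ℝ}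
    (hh : HasNu h ν) : VV h ≠ Set.univ := by
  intro hV
  obtain ⟨x, hx, hx2⟩ := dense_ne hd hV 0 ν hν
  rw [sub_zero] at hx2
  exact absurd (hh x hx) (not_le.2 hx2)

/-- a row with coefficients in a real number field of degree at most `d`, up to a factor -/
def AlgRow (h : Matrix (Fin d) (Fin d) ℝ) : Prop :=
  ∃ i₀ : Fin d, ∃ s : ℝ, s ≠ 0 ∧ ∃ K : IntermediateField ℚ ℝ, FiniteDimensional ℚ K ∧
    Module.finrank ℚ K ≤ d ∧ ∀ j, s * h i₀ j ∈ K

/-- **Isolation.** Near an algebraic point there are no other systems with the same determinant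
and lower bound, up to diagonal matrices. -/
theorem isolated (hd : 3 ≤ d) {V ν : ℝ} (hV : 0 < V) (hν : 0 < ν)
    {m : Matrix (Fin d) (Fin d) ℝ} (hm : m ∈ CSet V ν) (halg : AlgRow m) :
    ∀ᶠ M in 𝓝 m, M ∈ CSet V ν → ∃ a : Fin d → ℝ, (∀ i, 0 < a i) ∧ ∏ i, a i = 1 ∧
      M = diagonal a * m := by
  classical
  by_contra hcon
  rw [not_eventually] at hcon
  obtain ⟨hs, hlim, hbad⟩ := exists_seq_forall_of_frequently hcon
  have hd0 : 0 < d := by omega
  obtain ⟨i₀, s, hs0, K, hfin, hK, hmem⟩ := halg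
  obtain ⟨_, D, hD⟩ := build_dat hd m (CSet_det_ne hV hm) i₀ s hs0 K hK hmem (by
    intro x hx
    by_contra hne
    have h1 := hm.2 x hne
    have h2 : FF m (iR x) = 0 := by
      rw [FF]
      exact Finset.prod_eq_zero (Finset.mem_univ i₀) hx
    rw [h2, abs_zero] at h1
    exact absurd h1 (not_le.2 hν))
  rcases D.monomial_or_dense with hmono | hdense
  swap
  · have h1 : VV D.g = Set.univ := hdense
    rw [hD] at h1
    exact absurd h1 (not_dense hd0 hν hm.2)
  choose t ht using hmono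
  have hbij := D.mono_bij t ht
  obtain ⟨B, c, hBc, hc0, hgB, hBdet, hreal⟩ := D.mono_matrix t ht
  have hBu : IsUnit B.det := isUnit_iff_ne_zero.2 hBdet
  rw [hD] at hgB
  have hmem' : ∀ n, hs n ∈ CSet V ν := fun n => by
    by_contra h1
    exact hbad n fun h2 => absurd h2 h1
  set E : ℕ → Matrix (Fin d) (Fin d) ℝ := fun n => hs n * B⁻¹ with hE
  have hEB : ∀ n, E n * B = hs n := by
    intro n
    simp only [hE]
    rw [Matrix.mul_assoc, Matrix.nonsing_inv_mul _ hBu, Matrix.mul_one]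
  have hgood : ∀ᶠ n in atTop, ∀ k l, k ≠ l → E n k l = 0 := by
    by_contra hcon
    rw [not_eventually] at hcon
    push Not at hcon
    obtain ⟨⟨i₁, k₁⟩, hfreq⟩ : ∃ p : Fin d × Fin d, ∃ᶠ n in atTop, p.1 ≠ p.2 ∧
        E n p.1 p.2 ≠ 0 := by
      by_contra hcon2
      rw [not_exists] at hcon2
      have h1 : ∀ᶠ n in atTop, ∀ p : Fin d × Fin d, ¬ (p.1 ≠ p.2 ∧ E n p.1 p.2 ≠ 0) :=
        Filter.eventually_all.2 fun p => not_frequently.1 (hcon2 p)
      obtain ⟨n, hn1, hn2⟩ := (hcon.and_eventually h1).exists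
      obtain ⟨k, l, h2, h4⟩ := hn1
      exact hn2 (k, l) ⟨h2, h4⟩
    simp only at hfreq
    obtain ⟨hik1, -⟩ := hfreq.exists.choose_spec
    obtain ⟨θ, hθinj, hθsum, hθlt⟩ := exists_theta hd0 i₁ k₁ hik1
    obtain ⟨h', φ, a, γ, T, R, hφ, ha0, ha1, hγ, hT0, haT, hlim', hV'⟩ :=
      exit_lemma D t hbij hreal B c hBc hc0 hBdet hs (by rw [← hgB]; exact hlim) V hV
        (fun n => (hmem' n).1) i₁ k₁ (hfreq.mono fun n hn => hn.2) θ hθinj hθsum hθlt
    refine not_dense hd0 hν (h := h') ?_ hV'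
    refine ((CSet_closed V ν).mem_of_tendsto hlim' (Eventually.of_forall fun n => ?_)).2
    exact CSet_inv V ν _ (hmem' (φ n)) _ _ (ha0 n) (ha1 n) (hγ n)
  have hEt : Tendsto E atTop (𝓝 (diagonal c)) := by
    have h1 : Tendsto E atTop (𝓝 (m * B⁻¹)) :=
      ((continuous_id.matrix_mul continuous_const).tendsto m).comp hlim
    rwa [hgB, Matrix.mul_assoc, Matrix.mul_nonsing_inv _ hBu, Matrix.mul_one] at h1
  have hdiag : ∀ᶠ n in atTop, ∀ i, 0 < E n i i / c i := by
    refine Filter.eventually_all.2 fun i => ?_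
    have h1 : Tendsto (fun n => E n i i / c i) atTop (𝓝 (c i / c i)) := by
      have h2 : Continuous fun X : Matrix (Fin d) (Fin d) ℝ => X i i := continuous_id.matrix_elem i i
      have h3 := (h2.tendsto (diagonal c)).comp hEt
      have h4 : Tendsto (fun n => E n i i) atTop (𝓝 (c i)) := by
        simpa [Function.comp_def] using h3
      exact h4.div_const _
    rw [div_self (hc0 i)] at h1
    exact h1.eventually (lt_mem_nhds one_pos)
  obtain ⟨n, hn, hn2⟩ := (hgood.and hdiag).exists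
  apply hbad n
  intro hC
  have hEd : E n = diagonal (fun i => E n i i) := by
    ext k l
    by_cases hkl : k = l
    · rw [hkl, diagonal_apply_eq]
    · rw [hn k l hkl, diagonal_apply_ne _ hkl]
  have heq : hs n = diagonal (fun i => E n i i / c i) * m := by
    rw [hgB, ← Matrix.mul_assoc, diagonal_mul_diagonal, ← hEB n]
    congr 1
    rw [hEd]
    congr 1
    funext i
    rw [diagonal_apply_eq, div_mul_cancel₀ _ (hc0 i)]
  refine ⟨_, hn2, ?_, heq⟩
  have h1 := hC.1
  rw [heq, det_mul, det_diagonal, abs_mul, hm.1] at h1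
  have h2 : |∏ i, E n i i / c i| = 1 := by
    have h3 : (|∏ i, E n i i / c i| - 1) * V = 0 := by linarith
    rcases mul_eq_zero.1 h3 with h4 | h4
    · linarith
    · exact absurd h4 hV.ne'
  rwa [abs_of_pos (Finset.prod_pos fun i _ => hn2 i)] at h2

/-- all points of the orbit closure of an algebraic point are algebraic -/
theorem algRow_closure (hd : 3 ≤ d) {ν : ℝ} (hν : 0 < ν) {g h : Matrix (Fin d) (Fin d) ℝ}
    (hg : g.det ≠ 0) (hnu : HasNu g ν) (hP : PropInt g) (hh : h ∈ closure (Orb g)) :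
    PropInt h := by
  have hV0 : 0 < |h.det| := by
    rw [abs_det_closure hh]
    exact abs_pos.2 hg
  have hh0 : h.det ≠ 0 := abs_pos.1 hV0
  have hd0 : 0 < d := by omega
  have hT : (d.factorial : ℝ) * |h.det| <
      (d : ℝ) ^ d * ((d.factorial : ℝ) * |h.det| + 1) := by
    have h1 : (1 : ℝ) ≤ (d : ℝ) ^ d := one_le_pow₀ (by exact_mod_cast hd0)
    have h2 : 0 ≤ (d.factorial : ℝ) * |h.det| := by positivity
    nlinarith
  have hC : (closure {t : ℝ | ∃ x : Fin d → ℤ, FF h (iR x) = t ∧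
      |t| < (d.factorial : ℝ) * |h.det| + 1}).Countable := by
    refine (countable_VV hP).mono ?_
    refine closure_minimal ?_ isClosed_closure
    rintro t ⟨x, hx, -⟩
    rw [← hx]
    exact VV_subset hh (subset_closure ⟨x, rfl⟩)
  rcases countable_values hd hh0 ((d.factorial : ℝ) * |h.det| + 1)
    (fun h' hh' => mink_prod hd0 _ _ hV0 hT h' hh') hC with h1 | h1
  · exact h1
  · obtain ⟨x, hx, hx2⟩ := h1 ν hν
    have h3 := hasNu_closure hnu hh x hx
    linarith

end Pool.Agent.K3h42.OC
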