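import Mathlib
import Pool.Agent.K3h42.OC.RayIso
import Pool.Agent.Y327.Full
import Pool.Agent.H905R2.OppD

/-! # Limits along a path of diagonal matrices -/

open NumberField Filter Topology Matrix

namespace Pool.Agent.K3h42.OC

open H715R2

variable {d : ℕ} {ω : ℕ → Fin d → ℝ}

/-- diagonal matrix of the exponentials -/
noncomputable def Ex (x : Fin d → ℝ) : Matrix (Fin d) (Fin d) ℝ :=
  diagonal (fun i => Real.exp (x i))

lemma Ex_add (x y : Fin d → ℝ) : Ex (x + y) = Ex x * Ex y := by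
  unfold Ex
  rw [diagonal_mul_diagonal]
  congr 1
  funext i
  rw [← Real.exp_add, Pi.add_apply]

lemma Ex_zero : Ex (0 : Fin d → ℝ) = 1 := by
  unfold Ex
  simp

lemma Ex_neg_mul (x : Fin d → ℝ) : Ex (-x) * Ex x = 1 := by
  rw [← Ex_add, neg_add_cancel, Ex_zero]

lemma Ex_mul_neg (x : Fin d → ℝ) : Ex x * Ex (-x) = 1 := by
  rw [← Ex_add, add_neg_cancel, Ex_zero]

lemma prod_exp {x : Fin d → ℝ} (hx : ∑ i, x i = 0) : ∏ i, Real.exp (x i) = 1 := by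
  rw [← Real.exp_sum, hx, Real.exp_zero]

lemma Ex_det {x : Fin d → ℝ} (hx : ∑ i, x i = 0) : (Ex x).det = 1 := by
  rw [Ex, det_diagonal, prod_exp hx]

lemma Ex_cont : Continuous (Ex : (Fin d → ℝ) → Matrix (Fin d) (Fin d) ℝ) := by
  unfold Ex
  refine Continuous.matrix_diagonal ?_
  fun_prop

lemma Ex_entry (x : Fin d → ℝ) (g : Matrix (Fin d) (Fin d) ℝ) (γ : Matrix (Fin d) (Fin d) ℤ)
    (m : Fin d → ℤ) (i : Fin d) :
    ((Ex x * g * zR γ) *ᵥ iR m) i = Real.exp (x i) * (g *ᵥ iR (γ *ᵥ m)) i :=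
  Pool.Agent.R750.CV.orb_entry g _ γ m i

/-- a path of bounded steps in the hyperplane of sum zero -/
structure IsPath (ω : ℕ → Fin d → ℝ) : Prop where
  sum_zero : ∀ k, ∑ i, ω k i = 0
  steps : ∃ C : ℝ, ∀ k i, |ω (k + 1) i - ω k i| ≤ C

/-- lower limit of the absolute value of the product along the path -/
def LowP (ω : ℕ → Fin d → ℝ) (g : Matrix (Fin d) (Fin d) ℝ) (ν : ℝ) : Prop :=
  ∀ ν', ν' < ν → ∀ R : ℝ, ∃ K : ℕ, ∀ k, K ≤ k → ∀ m : Fin d → ℤ, m ≠ 0 →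
    (∀ i, Real.exp (ω k i) * |(g *ᵥ iR m) i| ≤ R) → ν' ≤ |FF g (iR m)|

/-- limits along the path -/
def LimP (ω : ℕ → Fin d → ℝ) (g : Matrix (Fin d) (Fin d) ℝ) : Set (Matrix (Fin d) (Fin d) ℝ) :=
  {h | ∃ (κ : ℕ → ℕ) (γ : ℕ → Matrix (Fin d) (Fin d) ℤ), Tendsto κ atTop atTop ∧
    (∀ k, IsUnit (γ k).det) ∧ Tendsto (fun k => Ex (ω (κ k)) * g * zR (γ k)) atTop (𝓝 h)}

lemma orb_mem {x : Fin d → ℝ} (hx : ∑ i, x i = 0) (g : Matrix (Fin d) (Fin d) ℝ)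
    {γ : Matrix (Fin d) (Fin d) ℤ} (hγ : IsUnit γ.det) : Ex x * g * zR γ ∈ Orb g :=
  ⟨_, γ, fun _ => Real.exp_pos _, prod_exp hx, hγ, rfl⟩

lemma LimP_closure (hω : IsPath ω) {g h : Matrix (Fin d) (Fin d) ℝ} (hh : h ∈ LimP ω g) :
    h ∈ closure (Orb g) := by
  obtain ⟨κ, γ, -, hγ, hlim⟩ := hh
  exact mem_closure_of_tendsto hlim
    (Eventually.of_forall fun k => orb_mem (hω.sum_zero _) g (hγ k))

lemma LimP_det (hω : IsPath ω) {g h : Matrix (Fin d) (Fin d) ℝ} (hh : h ∈ LimP ω g) :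
    |h.det| = |g.det| := abs_det_closure (LimP_closure hω hh)

lemma LimP_nu (hω : IsPath ω) {g h : Matrix (Fin d) (Fin d) ℝ} {ν : ℝ} (hL : LowP ω g ν)
    (hh : h ∈ LimP ω g) : HasNu h ν := by
  intro m hm
  obtain ⟨κ, γ, hκ, hγ, hlim⟩ := hh
  refine le_of_forall_lt_imp_le_of_dense fun ν' hν' => ?_
  have h1 : ∀ i, Tendsto (fun n => |((Ex (ω (κ n)) * g * zR (γ n)) *ᵥ iR m) i|) atTop
      (𝓝 |(h *ᵥ iR m) i|) := fun i =>
    (((Pool.Agent.R750.CV.cont_entry m i).tendsto h).comp hlim).abs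
  set R : ℝ := ∑ i, |(h *ᵥ iR m) i| + 1 with hR
  have h2 : ∀ᶠ n in atTop, ∀ i, |((Ex (ω (κ n)) * g * zR (γ n)) *ᵥ iR m) i| ≤ R := by
    refine Filter.eventually_all.2 fun i => ?_
    have h3 : |(h *ᵥ iR m) i| < R := by
      have : |(h *ᵥ iR m) i| ≤ ∑ i, |(h *ᵥ iR m) i| :=
        Finset.single_le_sum (f := fun i => |(h *ᵥ iR m) i|) (fun _ _ => abs_nonneg _)
          (Finset.mem_univ i)
      rw [hR]; linarith
    exact ((h1 i).eventually (eventually_lt_nhds h3)).mono fun n hn => hn.le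
  obtain ⟨K, hK⟩ := hL ν' hν' R
  have h3 : Tendsto (fun n => |FF (Ex (ω (κ n)) * g * zR (γ n)) (iR m)|) atTop
      (𝓝 |FF h (iR m)|) := (((continuous_FF (iR m)).tendsto h).comp hlim).abs
  refine ge_of_tendsto h3 ?_
  filter_upwards [h2, hκ.eventually_ge_atTop K] with n hn hnK
  rw [show FF (Ex (ω (κ n)) * g * zR (γ n)) (iR m) = FF g (iR (γ n *ᵥ m)) from
    FF_orb (prod_exp (hω.sum_zero _)) g (γ n) m]
  refine hK _ hnK _ (gamma_ne (hγ n) hm) fun i => ?_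
  have h4 := hn i
  rw [Ex_entry, abs_mul, abs_of_pos (Real.exp_pos _)] at h4
  exact h4

/-- bounded representatives -/
lemma bounded_reps (hd : 0 < d) (hω : IsPath ω) {g : Matrix (Fin d) (Fin d) ℝ}
    (hg : g.det ≠ 0) {ν : ℝ} (hν : 0 < ν) (hL : LowP ω g ν) :
    ∃ (R : ℝ) (K : ℕ), ∀ k, K ≤ k → ∃ γ : Matrix (Fin d) (Fin d) ℤ, IsUnit γ.det ∧
      ∀ i j, |(Ex (ω k) * g * zR γ) i j| ≤ R := by
  obtain ⟨ρ, R, hρ, hbd⟩ := exists_bound_loc hd |g.det| (ν / 2) (abs_pos.2 hg) (half_pos hν)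
  obtain ⟨K, hK⟩ := hL (ν / 2) (half_lt_self hν) ρ
  refine ⟨R, K, fun k hk => hbd (Ex (ω k) * g) (by
    rw [det_mul, Ex_det (hω.sum_zero _), one_mul]) ?_⟩
  intro m hm hm2
  rw [Ex, FF_diag_mul, prod_exp (hω.sum_zero _), one_mul]
  refine hK k hk m hm fun i => ?_
  have h4 := hm2 i
  rw [Ex, ← Matrix.mulVec_mulVec, Matrix.mulVec_diagonal, abs_mul,
    abs_of_pos (Real.exp_pos _)] at h4
  exact h4

lemma tendsto_inv_of {A : ℕ → Matrix (Fin d) (Fin d) ℝ} {B : Matrix (Fin d) (Fin d) ℝ}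
    (hA : Tendsto A atTop (𝓝 B)) (hB : B.det ≠ 0) : Tendsto (fun n => (A n)⁻¹) atTop (𝓝 B⁻¹) := by
  simp only [Matrix.inv_def, Ring.inverse_eq_inv']
  have h1 : Tendsto (fun n => (A n).det) atTop (𝓝 B.det) := (continuous_det'.tendsto B).comp hA
  have h2 : Tendsto (fun n => (A n).adjugate) atTop (𝓝 B.adjugate) :=
    ((continuous_id.matrix_adjugate).tendsto B).comp hA
  exact (h1.inv₀ hB).smul h2

lemma tendsto_mul_of {A A' : ℕ → Matrix (Fin d) (Fin d) ℝ} {B B' : Matrix (Fin d) (Fin d) ℝ}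
    (hA : Tendsto A atTop (𝓝 B)) (hA' : Tendsto A' atTop (𝓝 B')) :
    Tendsto (fun n => A n * A' n) atTop (𝓝 (B * B')) :=
  ((continuous_fst.matrix_mul continuous_snd).tendsto (B, B')).comp (hA.prodMk_nhds hA')

/-- nearest points of a closed set -/
lemma exists_nearest' {E : Type*} [MetricSpace E] [ProperSpace E] {C : Set E} (hC : IsClosed C)
    (hne : C.Nonempty) (X : ℕ → E) :
    ∃ M : ℕ → E, (∀ k, M k ∈ C) ∧
      ∀ (φ : ℕ → ℕ) (x : E), x ∈ C →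
        Tendsto (fun n => X (φ n)) atTop (𝓝 x) → Tendsto (fun n => M (φ n)) atTop (𝓝 x) := by
  have h1 : ∀ k, ∃ y ∈ C, Metric.infDist (X k) C = dist (X k) y := fun k =>
    hC.exists_infDist_eq_dist hne (X k)
  choose M hM1 hM2 using h1
  refine ⟨M, hM1, fun φ x hx hlim => ?_⟩
  rw [tendsto_iff_dist_tendsto_zero] at hlim ⊢
  have h2 : ∀ n, dist (M (φ n)) x ≤ 2 * dist (X (φ n)) x := by
    intro n
    have h3 : Metric.infDist (X (φ n)) C ≤ dist (X (φ n)) x := Metric.infDist_le_dist_of_mem hx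
    have h4 := dist_triangle (M (φ n)) (X (φ n)) x
    have h5 := hM2 (φ n)
    rw [dist_comm (M (φ n)) (X (φ n))] at h4
    linarith
  refine squeeze_zero (fun _ => dist_nonneg) h2 ?_
  simpa using hlim.const_mul 2

/-- nearest points of a closed set of matrices -/
lemma exists_nearest {C : Set (Matrix (Fin d) (Fin d) ℝ)} (hC : IsClosed C) (hne : C.Nonempty)
    (X : ℕ → Matrix (Fin d) (Fin d) ℝ) :
    ∃ M : ℕ → Matrix (Fin d) (Fin d) ℝ, (∀ k, M k ∈ C) ∧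
      ∀ (φ : ℕ → ℕ) (x : Matrix (Fin d) (Fin d) ℝ), x ∈ C →
        Tendsto (fun n => X (φ n)) atTop (𝓝 x) → Tendsto (fun n => M (φ n)) atTop (𝓝 x) :=
  exists_nearest' (E := Fin d → Fin d → ℝ) hC hne X

/-- the approximating sequences -/
theorem exists_seqs (hd : 0 < d) (hω : IsPath ω) {g : Matrix (Fin d) (Fin d) ℝ}
    (hg : g.det ≠ 0) {ν : ℝ} (hν : 0 < ν) (hL : LowP ω g ν) :
    ∃ (γ : ℕ → Matrix (Fin d) (Fin d) ℤ) (M : ℕ → Matrix (Fin d) (Fin d) ℝ),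
      (∀ k, IsUnit (γ k).det) ∧ (∀ k, M k ∈ CSet |g.det| ν) ∧
      ∀ φ : ℕ → ℕ, Tendsto φ atTop atTop → ∃ (ψ : ℕ → ℕ) (x x' : Matrix (Fin d) (Fin d) ℝ)
        (Δ : Fin d → ℝ),
        StrictMono ψ ∧ x ∈ CSet |g.det| ν ∧ x' ∈ CSet |g.det| ν ∧ ∑ i, Δ i = 0 ∧
        Tendsto (fun n => ω (φ (ψ n) + 1) - ω (φ (ψ n))) atTop (𝓝 Δ) ∧
        Tendsto (fun n => Ex (ω (φ (ψ n))) * g * zR (γ (φ (ψ n)))) atTop (𝓝 x) ∧
        Tendsto (fun n => Ex (ω (φ (ψ n) + 1)) * g * zR (γ (φ (ψ n) + 1))) atTop (𝓝 x') ∧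
        Tendsto (fun n => M (φ (ψ n))) atTop (𝓝 x) ∧
        Tendsto (fun n => M (φ (ψ n) + 1)) atTop (𝓝 x') := by
  classical
  obtain ⟨R, S, hRS⟩ := bounded_reps hd hω hg hν hL
  have h1 : ∀ k : ℕ, ∃ γ : Matrix (Fin d) (Fin d) ℤ, IsUnit γ.det ∧
      (S ≤ k → ∀ i j, |(Ex (ω k) * g * zR γ) i j| ≤ R) := by
    intro k
    by_cases hk : S ≤ k
    · obtain ⟨γ, h1, h2⟩ := hRS k hk
      exact ⟨γ, h1, fun _ => h2⟩
    · exact ⟨1, by simp, fun h => absurd h hk⟩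
  choose γ hγ hγb using h1
  set X : ℕ → Matrix (Fin d) (Fin d) ℝ := fun k => Ex (ω k) * g * zR (γ k) with hX
  -- limit points of `X` are in the closed set
  have hXC : ∀ (φ : ℕ → ℕ) (x : Matrix (Fin d) (Fin d) ℝ), Tendsto φ atTop atTop →
      Tendsto (fun n => X (φ n)) atTop (𝓝 x) → x ∈ CSet |g.det| ν := by
    intro φ x hφ hlim
    have h2 : x ∈ LimP ω g := ⟨φ, fun n => γ (φ n), hφ, fun n => hγ _, hlim⟩
    exact ⟨LimP_det hω h2, LimP_nu hω hL h2⟩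
  have hbox : ∀ᶠ k : ℕ in atTop, X k ∈ {h : Matrix (Fin d) (Fin d) ℝ | ∀ i j, |h i j| ≤ R} := by
    filter_upwards [eventually_ge_atTop S] with k hk
    exact hγb k hk
  obtain ⟨C, hC⟩ := hω.steps
  have hΔc : ∀ k, ω (k + 1) - ω k ∈ Set.pi Set.univ (fun _ : Fin d => Set.Icc (-C) C) :=
    fun k i _ => abs_le.1 (hC k i)
  have hext : ∀ φ : ℕ → ℕ, Tendsto φ atTop atTop → ∃ (ψ : ℕ → ℕ)
      (x x' : Matrix (Fin d) (Fin d) ℝ) (Δ : Fin d → ℝ), StrictMono ψ ∧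
        Tendsto (fun n => ω (φ (ψ n) + 1) - ω (φ (ψ n))) atTop (𝓝 Δ) ∧
        Tendsto (fun n => X (φ (ψ n))) atTop (𝓝 x) ∧
        Tendsto (fun n => X (φ (ψ n) + 1)) atTop (𝓝 x') := by
    intro φ hφ
    have hφ1 : Tendsto (fun n => φ n + 1) atTop atTop := (tendsto_add_atTop_nat 1).comp hφ
    have h3 : ∀ᶠ n in atTop, ((X (φ n), X (φ n + 1)), ω (φ n + 1) - ω (φ n)) ∈
        (({h : Matrix (Fin d) (Fin d) ℝ | ∀ i j, |h i j| ≤ R} ×ˢ
          {h : Matrix (Fin d) (Fin d) ℝ | ∀ i j, |h i j| ≤ R}) ×ˢ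
          (Set.pi Set.univ (fun _ : Fin d => Set.Icc (-C) C))) := by
      filter_upwards [hφ.eventually hbox, hφ1.eventually hbox] with n h4 h5
      exact ⟨⟨h4, h5⟩, hΔc _⟩
    obtain ⟨⟨⟨x, x'⟩, Δ⟩, -, ψ, hψ, hlim⟩ :=
      (((isCompact_box (d := d) R).prod (isCompact_box (d := d) R)).prod
        (isCompact_univ_pi (fun _ : Fin d => isCompact_Icc (a := -C) (b := C)))).tendsto_subseq'
          h3.frequently
    refine ⟨ψ, x, x', Δ, hψ, ?_, ?_, ?_⟩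
    · exact (continuous_snd.tendsto _).comp hlim
    · exact ((continuous_fst.comp continuous_fst).tendsto _).comp hlim
    · exact ((continuous_snd.comp continuous_fst).tendsto _).comp hlim
  have hne : (CSet (d := d) |g.det| ν).Nonempty := by
    obtain ⟨ψ, x, x', Δ, hψ, -, h4, -⟩ := hext id tendsto_id
    exact ⟨x, hXC _ _ hψ.tendsto_atTop h4⟩
  obtain ⟨M, hM1, hM2⟩ := exists_nearest (CSet_closed |g.det| ν) hne X
  refine ⟨γ, M, hγ, hM1, fun φ hφ => ?_⟩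
  obtain ⟨ψ, x, x', Δ, hψ, h0, h4, h5⟩ := hext φ hφ
  have h6 : Tendsto (fun n => φ (ψ n)) atTop atTop := hφ.comp hψ.tendsto_atTop
  have h7 : Tendsto (fun n => φ (ψ n) + 1) atTop atTop := (tendsto_add_atTop_nat 1).comp h6
  have hx := hXC _ _ h6 h4
  have hx' := hXC _ _ h7 h5
  have hΔ0 : ∑ i, Δ i = 0 := by
    have hc : Continuous fun y : Fin d → ℝ => ∑ i, y i := by fun_prop
    have h8 := (hc.tendsto Δ).comp h0
    have h9 : ((fun y : Fin d → ℝ => ∑ i, y i) ∘ fun n => ω (φ (ψ n) + 1) - ω (φ (ψ n))) =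
        fun _ => (0 : ℝ) := by
      funext n
      simp only [Function.comp, Pi.sub_apply]
      rw [Finset.sum_sub_distrib, hω.sum_zero, hω.sum_zero, sub_zero]
    rw [h9] at h8
    exact tendsto_nhds_unique h8 tendsto_const_nhds
  exact ⟨ψ, x, x', Δ, hψ, hx, hx', hΔ0, h0, h4, h5, hM2 _ _ hx h4, hM2 _ _ hx' h5⟩

lemma LimP_nonempty (hd : 0 < d) (hω : IsPath ω) {g : Matrix (Fin d) (Fin d) ℝ}
    (hg : g.det ≠ 0) {ν : ℝ} (hν : 0 < ν) (hL : LowP ω g ν) : (LimP ω g).Nonempty := by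
  obtain ⟨γ, M, hγ, -, hext⟩ := exists_seqs hd hω hg hν hL
  obtain ⟨ψ, x, -, -, hψ, -, -, -, -, h1, -⟩ := hext id tendsto_id
  exact ⟨x, ψ, fun n => γ (ψ n), hψ.tendsto_atTop, fun n => hγ _, h1⟩

end Pool.Agent.K3h42.OC
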