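import Mathlib
import Pool.Agent.K3h42.OC.Path

/-! # A trajectory near a compact orbit -/

open NumberField Filter Topology Matrix

namespace Pool.Agent.K3h42.OC

open H715R2

variable {d : ℕ} {ω : ℕ → Fin d → ℝ}

lemma algRow_of_propInt (hd : 3 ≤ d) {g : Matrix (Fin d) (Fin d) ℝ} (hg : g.det ≠ 0) {ν : ℝ}
    (hν : 0 < ν) (hnu : HasNu g ν) (hP : PropInt g) : AlgRow g := by
  have hd0 : 0 < d := by omega
  have hnz : ∀ p : Fin d → ℤ, p ≠ 0 → FF g (iR p) ≠ 0 := by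
    intro p hp h0
    have h1 := hnu p hp
    rw [h0, abs_zero] at h1
    exact absurd h1 (not_le.2 hν)
  obtain ⟨A, -, hA1, -, hA2⟩ := Pool.Agent.H905R2.Opp.oppA g hd0 hg hP hnz
  obtain ⟨lam, hlam, hAg⟩ := Pool.Agent.Y327.eig_of_opp hg hA1 hA2
  obtain ⟨K, hfin, hrank, s, hs, hmem⟩ := exists_alg_row hg A lam hlam hAg ⟨0, hd0⟩
  exact ⟨⟨0, hd0⟩, s, hs, K, hfin, hrank, hmem⟩

lemma diag_pos_mem {A : Set (Matrix (Fin d) (Fin d) ℝ)} (hA : H715R2.Inv A)
    {h : Matrix (Fin d) (Fin d) ℝ} (hh : h ∈ A) {a : Fin d → ℝ} (ha : ∀ i, 0 < a i)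
    (ha1 : ∏ i, a i = 1) : diagonal a * h ∈ A := by
  have h1 := hA h hh a 1 ha ha1 (by simp)
  rwa [zR_one, Matrix.mul_one] at h1

/-- The determinant of a matrix which is triangular for the order given by `σ` is the product of
its diagonal entries. -/
lemma det_of_pattern {σ : Fin d → ℝ} {q : Matrix (Fin d) (Fin d) ℝ}
    (hq : ∀ i j, i ≠ j → q i j ≠ 0 → σ i < σ j) : q.det = ∏ i, q i i := by
  set π := Tuple.sort σ with hπ
  have hmono : Monotone (σ ∘ π) := Tuple.monotone_sort σ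
  have h1 : (q.submatrix π π).det = q.det := Matrix.det_submatrix_equiv_self π q
  rw [← h1, Matrix.det_of_isUpperTriangular]
  · simp only [submatrix_apply]
    exact Equiv.prod_comp π fun i => q i i
  · intro a b hab
    rw [submatrix_apply]
    by_contra hne
    have h2 : π a ≠ π b := fun h => by
      have := π.injective h
      simp only [id] at hab
      exact absurd this hab.ne'
    have h3 := hq _ _ h2 hne
    have h4 := hmono (show b ≤ a from le_of_lt hab)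
    simp only [Function.comp] at h4
    linarith

/-- the relation between two rows: `ω k i - ω k j → -∞` -/
def Below (ω : ℕ → Fin d → ℝ) (i j : Fin d) : Prop :=
  Tendsto (fun k => ω k i - ω k j) atTop atBot

lemma det_of_below {q : Matrix (Fin d) (Fin d) ℝ}
    (hq : ∀ i j, i ≠ j → q i j ≠ 0 → Below ω i j) : q.det = ∏ i, q i i := by
  classical
  have h1 : ∀ᶠ k in atTop, ∀ p : Fin d × Fin d, Below ω p.1 p.2 → ω k p.1 < ω k p.2 := by
    refine Filter.eventually_all.2 fun p => ?_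
    by_cases hp : Below ω p.1 p.2
    · filter_upwards [(show Tendsto _ _ _ from hp).eventually (eventually_lt_atBot 0)] with k hk _
      linarith
    · exact Eventually.of_forall fun k h => absurd h hp
  obtain ⟨k, hk⟩ := h1.exists
  exact det_of_pattern (σ := ω k) fun i j hij hne => hk (i, j) (hq i j hij hne)

/-- **Isolation along a path.** -/
theorem path_iso (hd : 3 ≤ d) (hω : IsPath ω) {g : Matrix (Fin d) (Fin d) ℝ}
    (hg : g.det ≠ 0) {ν : ℝ} (hν : 0 < ν) (hL : LowP ω g ν) {h₀ : Matrix (Fin d) (Fin d) ℝ}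
    (hh₀ : h₀ ∈ LimP ω g) (hP₀ : PropInt h₀) :
    ∃ u M : Matrix (Fin d) (Fin d) ℝ, PropInt M ∧ M.det ≠ 0 ∧ HasNu M ν ∧ g = u * M ∧
      (∀ i, u i i = 1) ∧ ∀ k l, k ≠ l → u k l ≠ 0 → Below ω k l := by
  classical
  have hd0 : 0 < d := by omega
  set V : ℝ := |g.det| with hVdef
  have hV : 0 < V := abs_pos.2 hg
  have hh₀nu : HasNu h₀ ν := LimP_nu hω hL hh₀
  have hh₀V : |h₀.det| = V := LimP_det hω hh₀
  have hh₀C : h₀ ∈ CSet V ν := ⟨hh₀V, hh₀nu⟩
  have hh₀det : h₀.det ≠ 0 := CSet_det_ne hV hh₀C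
  -- the algebraic orbit closure
  set 𝒜 : Set (Matrix (Fin d) (Fin d) ℝ) := closure (Orb h₀) with h𝒜
  have h𝒜c : IsClosed 𝒜 := isClosed_closure
  have h𝒜i : H715R2.Inv 𝒜 := fun h hh a γ ha0 ha1 hγ => closure_mul hh ha0 ha1 hγ
  have h𝒜C : 𝒜 ⊆ CSet V ν := fun h hh =>
    ⟨(abs_det_closure hh).trans hh₀V, hasNu_closure hh₀nu hh⟩
  have hh₀𝒜 : h₀ ∈ 𝒜 := subset_closure (mem_orb_self h₀)
  have hPI : ∀ h ∈ 𝒜, PropInt h := fun h hh => algRow_closure hd hν hh₀det hh₀nu hP₀ hh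
  have hiso : ∀ x ∈ 𝒜, ∀ᶠ M in 𝓝 x, M ∈ CSet V ν → ∃ a : Fin d → ℝ, (∀ i, 0 < a i) ∧
      ∏ i, a i = 1 ∧ M = diagonal a * x := fun x hx =>
    isolated hd hV hν (h𝒜C hx) (algRow_of_propInt hd (CSet_det_ne hV (h𝒜C hx)) hν
      (h𝒜C hx).2 (hPI x hx))
  obtain ⟨γ, M, hγ, hMC, hext⟩ := exists_seqs hd0 hω hg hν hL
  rw [← hVdef] at hMC hext
  set X : ℕ → Matrix (Fin d) (Fin d) ℝ := fun k => Ex (ω k) * g * zR (γ k) with hX
  set δ : ℕ → Matrix (Fin d) (Fin d) ℤ := fun k => (γ k)⁻¹ * γ (k + 1) with hδ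
  set D : ℕ → Fin d → ℝ := fun k => ω (k + 1) - ω k with hDdef
  have hD0 : ∀ k, ∑ i, D k i = 0 := by
    intro k
    simp only [hDdef, Pi.sub_apply]
    rw [Finset.sum_sub_distrib, hω.sum_zero, hω.sum_zero, sub_zero]
  have hγi : ∀ k, IsUnit ((γ k)⁻¹).det := fun k => by
    rw [Matrix.det_nonsing_inv]
    exact (hγ k).ringInverse
  have hδu : ∀ k, IsUnit (δ k).det := fun k => by
    rw [hδ, det_mul]
    exact (hγi k).mul (hγ (k + 1))
  set N : ℕ → Matrix (Fin d) (Fin d) ℝ := fun k => Ex (D k) * M k * zR (δ k) with hN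
  have hXs : ∀ k, X (k + 1) = Ex (D k) * X k * zR (δ k) := by
    intro k
    simp only [hX, hδ]
    rw [zR_mul]
    have h1 : Ex (ω (k + 1)) = Ex (D k) * Ex (ω k) := by
      rw [← Ex_add]; congr 1; simp only [hDdef]; abel
    rw [h1]
    have h2 : zR (γ k) * (zR (γ k)⁻¹ * zR (γ (k + 1))) = zR (γ (k + 1)) := by
      rw [← Matrix.mul_assoc, zR_inv (hγ k), Matrix.one_mul]
    calc Ex (D k) * Ex (ω k) * g * zR (γ (k + 1))
        = Ex (D k) * Ex (ω k) * g * (zR (γ k) * (zR (γ k)⁻¹ * zR (γ (k + 1)))) := by rw [h2]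
      _ = _ := by simp only [Matrix.mul_assoc]
  have hXdet : ∀ k, (X k).det ≠ 0 := by
    intro k
    simp only [hX]
    rw [det_mul, det_mul, Ex_det (hω.sum_zero _), one_mul, det_zR]
    refine mul_ne_zero hg ?_
    exact_mod_cast (hγ k).ne_zero
  have hTinv : ∀ (B : Set (Matrix (Fin d) (Fin d) ℝ)), H715R2.Inv B → ∀ h ∈ B, ∀ (x : Fin d → ℝ)
      (η : Matrix (Fin d) (Fin d) ℤ), ∑ i, x i = 0 → IsUnit η.det → Ex x * h * zR η ∈ B :=
    fun B hB h hh x η hx hη => hB h hh _ η (fun i => Real.exp_pos _) (prod_exp hx) hη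
  have hNC : ∀ k, N k ∈ CSet V ν := fun k =>
    hTinv _ (CSet_inv V ν) _ (hMC k) _ _ (hD0 k) (hδu k)
  -- convergence of `N` along subsequences
  have hNlim : ∀ (φ : ℕ → ℕ) (x x' : Matrix (Fin d) (Fin d) ℝ) (Δ : Fin d → ℝ),
      x ∈ CSet V ν → ∑ i, Δ i = 0 → Tendsto (fun n => D (φ n)) atTop (𝓝 Δ) →
      Tendsto (fun n => X (φ n)) atTop (𝓝 x) → Tendsto (fun n => X (φ n + 1)) atTop (𝓝 x') →
      Tendsto (fun n => M (φ n)) atTop (𝓝 x) → Tendsto (fun n => N (φ n)) atTop (𝓝 x') := by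
    intro φ x x' Δ hx hΔ h0 h1 h2 h3
    have hE : Tendsto (fun n => Ex (D (φ n))) atTop (𝓝 (Ex Δ)) := (Ex_cont.tendsto Δ).comp h0
    have hxd : (Ex Δ * x).det ≠ 0 := by
      rw [det_mul, Ex_det hΔ, one_mul]
      exact CSet_det_ne hV hx
    have h4 : Tendsto (fun n => Ex (D (φ n)) * X (φ n)) atTop (𝓝 (Ex Δ * x)) :=
      tendsto_mul_of hE h1
    have h5 := tendsto_mul_of (tendsto_inv_of h4 hxd) h2
    have h6 : ∀ n, (Ex (D (φ n)) * X (φ n))⁻¹ * X (φ n + 1) = zR (δ (φ n)) := by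
      intro n
      have hu : IsUnit (Ex (D (φ n)) * X (φ n)).det := by
        rw [det_mul, Ex_det (hD0 _), one_mul]
        exact isUnit_iff_ne_zero.2 (hXdet _)
      rw [hXs, ← Matrix.mul_assoc, Matrix.nonsing_inv_mul _ hu, Matrix.one_mul]
    simp only [h6] at h5
    have h7 := tendsto_mul_of (tendsto_mul_of hE h3) h5
    have h8 : Ex Δ * x * ((Ex Δ * x)⁻¹ * x') = x' := by
      rw [← Matrix.mul_assoc, Matrix.mul_nonsing_inv _ (isUnit_iff_ne_zero.2 hxd),
        Matrix.one_mul]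
    rwa [h8] at h7
  -- Claim A
  have hA : ∀ᶠ k in atTop, M k ∈ 𝒜 → M (k + 1) ∈ 𝒜 := by
    by_contra hcon
    rw [not_eventually] at hcon
    obtain ⟨φ, hφ, hbad⟩ := extraction_of_frequently_atTop hcon
    obtain ⟨ψ, x, x', Δ, hψ, hx, hx', hΔ, h0, h1, h2, h3, h4⟩ := hext φ hφ.tendsto_atTop
    have h5 := hNlim (fun n => φ (ψ n)) x x' Δ hx hΔ h0 h1 h2 h3
    have hMA : ∀ n, M (φ n) ∈ 𝒜 := fun n => by
      by_contra h; exact hbad n fun h' => absurd h' h
    have hMA' : ∀ n, M (φ n + 1) ∉ 𝒜 := fun n h => hbad n fun _ => h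
    have hx'A : x' ∈ 𝒜 := h𝒜c.mem_of_tendsto h5 (Eventually.of_forall fun n =>
      hTinv _ h𝒜i _ (hMA _) _ _ (hD0 _) (hδu _))
    obtain ⟨n, hn⟩ := (h4.eventually (hiso x' hx'A)).exists
    obtain ⟨a, ha0, ha1, ha⟩ := hn (hMC _)
    apply hMA' (ψ n)
    rw [ha]
    exact diag_pos_mem h𝒜i hx'A ha0 ha1
  -- base
  have hB : ∃ᶠ k in atTop, M k ∈ 𝒜 := by
    intro hcon
    obtain ⟨κ, γ', hκt, hγ', hlim⟩ := hh₀
    obtain ⟨ψ, x, -, -, hψ, hx, -, -, -, h1, -, h3, -⟩ := hext κ hκt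
    have h6 := hlim.comp hψ.tendsto_atTop
    have h7 := tendsto_mul_of (tendsto_inv_of h6 hh₀det) h1
    have h8 : ∀ n, (Ex (ω (κ (ψ n))) * g * zR (γ' (ψ n)))⁻¹ *
        (Ex (ω (κ (ψ n))) * g * zR (γ (κ (ψ n)))) =
        zR ((γ' (ψ n))⁻¹ * γ (κ (ψ n))) := by
      intro n
      set Z := Ex (ω (κ (ψ n))) * g * zR (γ' (ψ n)) with hZ
      have hu : IsUnit Z.det := by
        rw [hZ, det_mul, det_mul, Ex_det (hω.sum_zero _), one_mul, det_zR]
        refine isUnit_iff_ne_zero.2 (mul_ne_zero hg ?_)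
        exact_mod_cast (hγ' _).ne_zero
      have h9 : Ex (ω (κ (ψ n))) * g * zR (γ (κ (ψ n))) =
          Z * zR ((γ' (ψ n))⁻¹ * γ (κ (ψ n))) := by
        rw [hZ, zR_mul, Matrix.mul_assoc (Ex (ω (κ (ψ n))) * g), ← Matrix.mul_assoc (zR _),
          zR_inv (hγ' _), Matrix.one_mul]
      rw [h9, ← Matrix.mul_assoc, Matrix.nonsing_inv_mul _ hu, Matrix.one_mul]
    have h7' : Tendsto (fun n => zR ((γ' (ψ n))⁻¹ * γ (κ (ψ n)))) atTop
        (𝓝 (h₀⁻¹ * x)) := by
      refine h7.congr fun n => ?_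
      exact h8 n
    have h10 := tendsto_mul_of (tendsto_const_nhds (x := h₀)) h7'
    have h11 : h₀ * (h₀⁻¹ * x) = x := by
      rw [← Matrix.mul_assoc, Matrix.mul_nonsing_inv _ (isUnit_iff_ne_zero.2 hh₀det),
        Matrix.one_mul]
    rw [h11] at h10
    have hxA : x ∈ 𝒜 := h𝒜c.mem_of_tendsto h10 (Eventually.of_forall fun n => by
      have h12 := h𝒜i h₀ hh₀𝒜 (fun _ => 1) ((γ' (ψ n))⁻¹ * γ (κ (ψ n)))
        (fun _ => one_pos) (by simp) (by
          rw [det_mul]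
          refine IsUnit.mul ?_ (hγ _)
          rw [Matrix.det_nonsing_inv]
          exact (hγ' _).ringInverse)
      rwa [diagonal_one, Matrix.one_mul] at h12)
    have h13 : ∀ᶠ n in atTop, M (κ (ψ n)) ∉ 𝒜 :=
      (hκt.comp hψ.tendsto_atTop).eventually hcon
    obtain ⟨n, hn, hn2⟩ := ((h3.eventually (hiso x hxA)).and h13).exists
    obtain ⟨a, ha0, ha1, ha⟩ := hn (hMC _)
    apply hn2
    rw [ha]
    exact diag_pos_mem h𝒜i hxA ha0 ha1
  have hMev : ∀ᶠ k in atTop, M k ∈ 𝒜 := by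
    obtain ⟨K, hK⟩ := eventually_atTop.1 hA
    obtain ⟨k₁, hk₁, hk₁'⟩ := (hB.and_eventually (eventually_ge_atTop K)).exists
    filter_upwards [eventually_ge_atTop k₁] with k hk
    induction k, hk using Nat.le_induction with
    | base => exact hk₁
    | succ k hk ih => exact hK k (hk₁'.trans hk) ih
  -- Claim B
  have hBb : ∀ᶠ k in atTop, ∃ a : Fin d → ℝ, (∀ i, 0 < a i) ∧ M (k + 1) = diagonal a * N k := by
    by_contra hcon
    rw [not_eventually] at hcon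
    obtain ⟨φ, hφ, hbad⟩ := extraction_of_frequently_atTop hcon
    obtain ⟨ψ, x, x', Δ, hψ, hx, hx', hΔ, h0, h1, h2, h3, h4⟩ := hext φ hφ.tendsto_atTop
    have h5 := hNlim (fun n => φ (ψ n)) x x' Δ hx hΔ h0 h1 h2 h3
    have h6 : Tendsto (fun n => φ (ψ n) + 1) atTop atTop :=
      (tendsto_add_atTop_nat 1).comp (hφ.tendsto_atTop.comp hψ.tendsto_atTop)
    have hx'A : x' ∈ 𝒜 := h𝒜c.mem_of_tendsto h4 (h6.eventually hMev)
    obtain ⟨n, hn, hn2⟩ := ((h4.eventually (hiso x' hx'A)).and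
      (h5.eventually (hiso x' hx'A))).exists
    obtain ⟨a, ha0, ha1, ha⟩ := hn (hMC _)
    obtain ⟨b, hb0, hb1, hb⟩ := hn2 (hNC _)
    refine hbad (ψ n) ⟨fun i => a i / b i, fun i => div_pos (ha0 i) (hb0 i), ?_⟩
    rw [ha, hb, ← Matrix.mul_assoc, diagonal_mul_diagonal]
    congr 2
    funext i
    rw [div_mul_cancel₀ _ (hb0 i).ne']
  -- Claim C
  set q : ℕ → Matrix (Fin d) (Fin d) ℝ := fun k => X k * (M k)⁻¹ with hq
  have hMdet : ∀ k, (M k).det ≠ 0 := fun k => CSet_det_ne hV (hMC k)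
  have hqM : ∀ k, q k * M k = X k := fun k => by
    simp only [hq]
    rw [Matrix.mul_assoc, Matrix.nonsing_inv_mul _ (isUnit_iff_ne_zero.2 (hMdet k)),
      Matrix.mul_one]
  have hqlim : Tendsto q atTop (𝓝 1) := by
    refine tendsto_of_subseq_tendsto fun ns hns => ?_
    obtain ⟨ψ, x, x', Δ, hψ, hx, hx', hΔ, h0, h1, h2, h3, h4⟩ := hext ns hns
    refine ⟨ψ, ?_⟩
    have h5 := tendsto_mul_of h1 (tendsto_inv_of h3 (CSet_det_ne hV hx))
    rw [Matrix.mul_nonsing_inv _ (isUnit_iff_ne_zero.2 (CSet_det_ne hV hx))] at h5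
    exact h5
  have hqe : ∀ i j, Tendsto (fun k => q k i j) atTop (𝓝 ((1 : Matrix (Fin d) (Fin d) ℝ) i j)) := by
    intro i j
    have h2 : Continuous fun Y : Matrix (Fin d) (Fin d) ℝ => Y i j := continuous_id.matrix_elem i j
    exact (h2.tendsto _).comp hqlim
  -- Claim D
  have hD : ∀ᶠ k in atTop, ∃ a : Fin d → ℝ, (∀ i, 0 < a i) ∧
      ∀ i j, q (k + 1) i j * a j = Real.exp (D k i) * q k i j * Real.exp (-D k j) := by
    filter_upwards [hBb] with k hk
    obtain ⟨a, ha0, ha⟩ := hk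
    refine ⟨a, ha0, ?_⟩
    have hNd : IsUnit (N k).det := isUnit_iff_ne_zero.2 (CSet_det_ne hV (hNC k))
    have h1 : q (k + 1) * diagonal a * N k = Ex (D k) * q k * Ex (-D k) * N k := by
      calc q (k + 1) * diagonal a * N k = q (k + 1) * M (k + 1) := by
            rw [ha, Matrix.mul_assoc]
        _ = Ex (D k) * (q k * M k) * zR (δ k) := by rw [hqM, hqM, hXs]
        _ = Ex (D k) * q k * (Ex (-D k) * Ex (D k)) * M k * zR (δ k) := by
            rw [Ex_neg_mul, Matrix.mul_one]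
            simp only [Matrix.mul_assoc]
        _ = _ := by simp only [hN, Matrix.mul_assoc]
    have h2 : q (k + 1) * diagonal a = Ex (D k) * q k * Ex (-D k) := by
      have h3 := congrArg (fun Y => Y * (N k)⁻¹) h1
      simp only [Matrix.mul_assoc] at h3
      rw [Matrix.mul_nonsing_inv _ hNd] at h3
      simpa only [Matrix.mul_one, Matrix.mul_assoc] using h3
    intro i j
    have h3 := congrFun (congrFun h2 i) j
    rw [mul_diagonal, Ex, Ex, mul_diagonal, diagonal_mul] at h3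
    exact h3
  have hdiag : ∀ᶠ k in atTop, ∀ i, q k i i ≠ 0 := by
    refine Filter.eventually_all.2 fun i => ?_
    have h1 := hqe i i
    rw [one_apply_eq] at h1
    exact h1.eventually_ne one_ne_zero
  obtain ⟨k₁, hk₁⟩ := eventually_atTop.1 ((hD.and hdiag).and hMev)
  -- the ratios
  have hrat : ∀ i j k, k₁ ≤ k → |q (k + 1) i j / q (k + 1) j j| =
      Real.exp (D k i - D k j) * |q k i j / q k j j| := by
    intro i j k hk
    obtain ⟨⟨⟨a, ha0, ha⟩, hd1⟩, -⟩ := hk₁ k hk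
    obtain ⟨⟨-, hd2⟩, -⟩ := hk₁ (k + 1) (by omega)
    have h1 := ha i j
    have h2 := ha j j
    have h3 : q (k + 1) i j / q (k + 1) j j = Real.exp (D k i - D k j) * (q k i j / q k j j) := by
      rw [div_eq_iff (hd2 j)]
      have h4 : a j ≠ 0 := (ha0 j).ne'
      have h5 : q (k + 1) j j = Real.exp (D k j) * q k j j * Real.exp (-D k j) / a j := by
        rw [eq_div_iff h4, h2]
      have h6 : q (k + 1) i j = Real.exp (D k i) * q k i j * Real.exp (-D k j) / a j := by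
        rw [eq_div_iff h4, h1]
      rw [h5, h6, Real.exp_sub, Real.exp_neg]
      have h7 := hd1 j
      have h8 := (Real.exp_pos (D k j)).ne'
      field_simp
    rw [h3, abs_mul, abs_of_pos (Real.exp_pos _)]
  have hratk : ∀ i j k, k₁ ≤ k → |q k i j / q k j j| =
      Real.exp ((ω k i - ω k j) - (ω k₁ i - ω k₁ j)) * |q k₁ i j / q k₁ j j| := by
    intro i j k hk
    induction k, hk using Nat.le_induction with
    | base => rw [sub_self, Real.exp_zero, one_mul]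
    | succ k hk ih =>
      rw [hrat i j k hk, ih, ← mul_assoc, ← Real.exp_add]
      congr 2
      simp only [hDdef, Pi.sub_apply]
      ring
  have hpat : ∀ i j, i ≠ j → q k₁ i j ≠ 0 → Below ω i j := by
    intro i j hij hne
    have h0 : 0 < |q k₁ i j / q k₁ j j| := abs_pos.2 (div_ne_zero hne ((hk₁ k₁ le_rfl).1.2 j))
    have h2 : Tendsto (fun k => |q k i j / q k j j|) atTop (𝓝 |(0 : ℝ) / 1|) := by
      have h3 := hqe i j
      have h4 := hqe j j
      rw [one_apply_ne hij] at h3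
      rw [one_apply_eq] at h4
      exact (h3.div h4 one_ne_zero).abs
    rw [zero_div, abs_zero] at h2
    have h3 : Tendsto (fun k => Real.exp ((ω k i - ω k j) - (ω k₁ i - ω k₁ j))) atTop (𝓝 0) := by
      have h4 : Tendsto (fun k => |q k i j / q k j j| / |q k₁ i j / q k₁ j j|) atTop
          (𝓝 (0 / |q k₁ i j / q k₁ j j|)) := h2.div_const _
      rw [zero_div] at h4
      refine h4.congr' ?_
      filter_upwards [eventually_ge_atTop k₁] with k hk
      rw [hratk i j k hk, mul_div_assoc, div_self h0.ne', mul_one]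
    rw [Real.tendsto_exp_comp_nhds_zero] at h3
    have h4 := tendsto_atBot_add_const_right atTop (ω k₁ i - ω k₁ j) h3
    refine h4.congr fun k => ?_
    ring
  -- conclusion
  set e : Fin d → ℝ := fun j => q k₁ j j with he
  have he0 : ∀ j, e j ≠ 0 := fun j => (hk₁ k₁ le_rfl).1.2 j
  have hM1 : M k₁ ∈ 𝒜 := (hk₁ k₁ le_rfl).2
  have heprod : |∏ j, e j| = 1 := by
    have h1 : (q k₁).det = ∏ j, e j := det_of_below hpat
    have h2 : (q k₁).det * (M k₁).det = (X k₁).det := by rw [← det_mul, hqM]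
    have h3 : |(X k₁).det| = V := by
      simp only [hX]
      rw [det_mul, det_mul, Ex_det (hω.sum_zero _), one_mul, abs_mul, det_zR,
        abs_det_of_isUnit (hγ _), mul_one]
    have h4 := congrArg abs h2
    rw [abs_mul, h3, (hMC k₁).1, h1] at h4
    exact mul_right_cancel₀ hV.ne' (h4.trans (one_mul V).symm)
  set M' : Matrix (Fin d) (Fin d) ℝ := Ex (-ω k₁) * M k₁ * zR (γ k₁)⁻¹ with hM'
  have hM'A : M' ∈ 𝒜 := hTinv _ h𝒜i _ hM1 _ _ (by
    simp only [Pi.neg_apply]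
    rw [Finset.sum_neg_distrib, hω.sum_zero, neg_zero]) (hγi k₁)
  have hM'P := hPI _ hM'A
  have hM'C := h𝒜C hM'A
  have hgeq : g = Ex (-ω k₁) * q k₁ * Ex (ω k₁) * M' := by
    have h1 : Ex (-ω k₁) * X k₁ * zR (γ k₁)⁻¹ = g := by
      simp only [hX]
      have h2 : zR (γ k₁) * zR (γ k₁)⁻¹ = 1 := zR_inv (hγ k₁)
      calc Ex (-ω k₁) * (Ex (ω k₁) * g * zR (γ k₁)) * zR (γ k₁)⁻¹
          = (Ex (-ω k₁) * Ex (ω k₁)) * g * (zR (γ k₁) * zR (γ k₁)⁻¹) := by
            simp only [Matrix.mul_assoc]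
        _ = g := by rw [h2, Ex_neg_mul, Matrix.one_mul, Matrix.mul_one]
    rw [hM']
    calc g = Ex (-ω k₁) * (q k₁ * M k₁) * zR (γ k₁)⁻¹ := by rw [hqM, h1]
      _ = Ex (-ω k₁) * q k₁ * (Ex (ω k₁) * Ex (-ω k₁)) * M k₁ * zR (γ k₁)⁻¹ := by
          rw [Ex_mul_neg, Matrix.mul_one]
          simp only [Matrix.mul_assoc]
      _ = _ := by simp only [Matrix.mul_assoc]
  have hPd : PropInt (diagonal e * M') := by
    obtain ⟨c, hc, hz⟩ := hM'P
    have hep : (∏ j, e j) ≠ 0 := Finset.prod_ne_zero_iff.2 fun j _ => he0 j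
    refine ⟨c / ∏ j, e j, div_ne_zero hc hep, fun m => ?_⟩
    obtain ⟨z, hz⟩ := hz m
    refine ⟨z, ?_⟩
    rw [← hz]
    have h1 : polyF (diagonal e * M') = MvPolynomial.C (∏ j, e j) * polyF M' := by
      unfold polyF
      rw [map_prod, ← Finset.prod_mul_distrib]
      refine Finset.prod_congr rfl fun i _ => ?_
      rw [Finset.mul_sum]
      refine Finset.sum_congr rfl fun j _ => ?_
      rw [diagonal_mul, map_mul, mul_assoc]
    rw [h1, MvPolynomial.coeff_smul, MvPolynomial.coeff_smul, MvPolynomial.coeff_C_mul,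
      smul_eq_mul, smul_eq_mul, ← mul_assoc, div_mul_cancel₀ _ hep]
  refine ⟨Ex (-ω k₁) * q k₁ * Ex (ω k₁) * diagonal (fun j => (e j)⁻¹), diagonal e * M',
    hPd, ?_, ?_, ?_, ?_, ?_⟩
  · rw [det_mul, det_diagonal]
    exact mul_ne_zero (Finset.prod_ne_zero_iff.2 fun j _ => he0 j) (CSet_det_ne hV hM'C)
  · intro m hm
    rw [FF_diag_mul, abs_mul, heprod, one_mul]
    exact hM'C.2 m hm
  · rw [Matrix.mul_assoc, ← Matrix.mul_assoc (diagonal fun j => (e j)⁻¹), diagonal_mul_diagonal]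
    have : (fun i => (e i)⁻¹ * e i) = fun _ => (1 : ℝ) := by
      funext i; exact inv_mul_cancel₀ (he0 i)
    rw [this, diagonal_one, Matrix.one_mul]
    exact hgeq
  · intro i
    rw [mul_diagonal, Ex, Ex, mul_diagonal, diagonal_mul]
    have h1 : Real.exp ((-ω k₁) i) * Real.exp (ω k₁ i) = 1 := by
      rw [← Real.exp_add, Pi.neg_apply, neg_add_cancel, Real.exp_zero]
    have h2 := he0 i
    have h3 : q k₁ i i = e i := rfl
    rw [h3]
    calc Real.exp ((-ω k₁) i) * e i * Real.exp (ω k₁ i) * (e i)⁻¹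
        = (Real.exp ((-ω k₁) i) * Real.exp (ω k₁ i)) * (e i * (e i)⁻¹) := by ring
      _ = 1 := by rw [h1, mul_inv_cancel₀ h2, one_mul]
  · intro k l hkl hne
    refine hpat k l hkl fun h0 => hne ?_
    rw [mul_diagonal, Ex, Ex, mul_diagonal, diagonal_mul, h0, mul_zero, zero_mul, zero_mul]

end Pool.Agent.K3h42.OC
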