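import Mathlib
import Pool.Agent.K3h42.OC.PTraj

/-! # Unipotent modifications of algebraic systems -/

open NumberField Filter Topology Matrix

namespace Pool.Agent.K3h42.OC

open H715R2

variable {d : ℕ} {ω : ℕ → Fin d → ℝ}

/-- the conjugates of `u` tend to one -/
lemma conj_tendsto {u : Matrix (Fin d) (Fin d) ℝ} (hu1 : ∀ i, u i i = 1)
    (hu : ∀ i j, i ≠ j → u i j ≠ 0 → Below ω i j) {κ : ℕ → ℕ} (hκ : Tendsto κ atTop atTop) :
    Tendsto (fun n => Ex (ω (κ n)) * u * Ex (-ω (κ n))) atTop (𝓝 1) := by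
  refine tendsto_pi_nhds.2 fun i => tendsto_pi_nhds.2 fun j => ?_
  have h1 : ∀ n, (Ex (ω (κ n)) * u * Ex (-ω (κ n))) i j =
      u i j * Real.exp (ω (κ n) i - ω (κ n) j) := by
    intro n
    rw [Ex, Ex, mul_diagonal, diagonal_mul]
    have h2 : Real.exp (ω (κ n) i - ω (κ n) j) =
        Real.exp (ω (κ n) i) * Real.exp ((-ω (κ n)) j) := by
      rw [← Real.exp_add]; congr 1
    rw [h2]; ring
  simp only [h1]
  by_cases hij : i = j
  · rw [hij, hu1, one_apply_eq]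
    simp
  · rw [one_apply_ne hij]
    by_cases h0 : u i j = 0
    · simp [h0]
    · have h3 : Tendsto (fun n => Real.exp (ω (κ n) i - ω (κ n) j)) atTop (𝓝 0) :=
        Real.tendsto_exp_atBot.comp ((hu i j hij h0 : Tendsto _ _ _).comp hκ)
      simpa using h3.const_mul (u i j)

lemma det_u {u : Matrix (Fin d) (Fin d) ℝ} (hu1 : ∀ i, u i i = 1)
    (hu : ∀ i j, i ≠ j → u i j ≠ 0 → Below ω i j) : u.det = 1 := by
  rw [det_of_below hu]
  exact Finset.prod_eq_one fun i _ => hu1 i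

/-- the factor `v` with `e^x (u M) = v (e^x M)` -/
lemma conj_mul (u M : Matrix (Fin d) (Fin d) ℝ) (x : Fin d → ℝ) :
    Ex x * (u * M) = (Ex x * u * Ex (-x)) * (Ex x * M) := by
  calc Ex x * (u * M) = Ex x * u * (Ex (-x) * Ex x) * M := by
        rw [Ex_neg_mul, Matrix.mul_one, Matrix.mul_assoc]
    _ = _ := by simp only [Matrix.mul_assoc]

lemma neg_sum {x : Fin d → ℝ} (hx : ∑ i, x i = 0) : ∑ i, (-x) i = 0 := by
  simp only [Pi.neg_apply]
  rw [Finset.sum_neg_distrib, hx, neg_zero]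

/-- lower limit of a unipotent modification -/
theorem lowP_of_factor (hω : IsPath ω) {u M : Matrix (Fin d) (Fin d) ℝ}
    (hu1 : ∀ i, u i i = 1) (hu : ∀ i j, i ≠ j → u i j ≠ 0 → Below ω i j) {ν : ℝ}
    (hM : HasNu M ν) : LowP ω (u * M) ν := by
  intro ν' hν' R
  by_contra hcon
  push Not at hcon
  choose κ hκ m hm hb hF using fun n : ℕ => hcon n
  have hκt : Tendsto κ atTop atTop := tendsto_atTop_mono hκ tendsto_id
  set y : ℕ → Fin d → ℝ := fun n i => Real.exp (ω (κ n) i) * ((u * M) *ᵥ iR (m n)) i with hy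
  have hyb : ∀ n, y n ∈ Set.pi Set.univ (fun _ : Fin d => Set.Icc (-R) R) := by
    intro n i _
    have h1 := hb n i
    rw [← abs_of_pos (Real.exp_pos (ω (κ n) i)), ← abs_mul] at h1
    exact abs_le.1 h1
  obtain ⟨y₀, -, φ, hφ, hlim⟩ :=
    (isCompact_univ_pi (fun _ : Fin d => isCompact_Icc (a := -R) (b := R))).tendsto_subseq hyb
  set v : ℕ → Matrix (Fin d) (Fin d) ℝ := fun n => Ex (ω (κ n)) * u * Ex (-ω (κ n)) with hv
  have hv1 : Tendsto v atTop (𝓝 1) := conj_tendsto hu1 hu hκt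
  have hvd : ∀ n, (v n).det = 1 := by
    intro n
    rw [hv]
    simp only
    rw [det_mul, det_mul, Ex_det (hω.sum_zero _), Ex_det (neg_sum (hω.sum_zero _)),
      det_u hu1 hu, one_mul, one_mul]
  set z : ℕ → Fin d → ℝ := fun n => (Ex (ω (κ n)) * M) *ᵥ iR (m n) with hz
  have hyz : ∀ n, y n = v n *ᵥ z n := by
    intro n
    have h1 : y n = (Ex (ω (κ n)) * (u * M)) *ᵥ iR (m n) := by
      funext i
      rw [hy, Ex, ← Matrix.mulVec_mulVec, Matrix.mulVec_diagonal]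
    rw [h1, conj_mul, hz]
    simp only [hv]
    rw [Matrix.mulVec_mulVec]
  have hzy : ∀ n, z n = (v n)⁻¹ *ᵥ y n := by
    intro n
    rw [hyz, Matrix.mulVec_mulVec, Matrix.nonsing_inv_mul _ (by rw [hvd]; exact isUnit_one),
      Matrix.one_mulVec]
  have hvi : Tendsto (fun n => (v n)⁻¹) atTop (𝓝 (1 : Matrix (Fin d) (Fin d) ℝ)⁻¹) :=
    tendsto_inv_of hv1 (by rw [det_one]; exact one_ne_zero)
  rw [inv_one] at hvi
  have hzlim : Tendsto (fun n => z (φ n)) atTop (𝓝 y₀) := by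
    have h1 : Continuous fun p : Matrix (Fin d) (Fin d) ℝ × (Fin d → ℝ) => p.1 *ᵥ p.2 :=
      continuous_fst.matrix_mulVec continuous_snd
    have h2 := (h1.tendsto (1, y₀)).comp ((hvi.comp hφ.tendsto_atTop).prodMk_nhds hlim)
    simp only [Matrix.one_mulVec] at h2
    refine h2.congr fun n => ?_
    simp only [Function.comp]
    exact (hzy _).symm
  have hprod : Continuous fun w : Fin d → ℝ => |∏ i, w i| := by fun_prop
  have h1 : Tendsto (fun n => |∏ i, z (φ n) i|) atTop (𝓝 |∏ i, y₀ i|) :=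
    (hprod.tendsto y₀).comp hzlim
  have h2 : Tendsto (fun n => |∏ i, y (φ n) i|) atTop (𝓝 |∏ i, y₀ i|) :=
    (hprod.tendsto y₀).comp hlim
  have h3 : ν ≤ |∏ i, y₀ i| := by
    refine ge_of_tendsto h1 (Eventually.of_forall fun n => ?_)
    have h4 : ∏ i, z (φ n) i = FF M (iR (m (φ n))) := by
      have h5 : ∏ i, z (φ n) i = FF (Ex (ω (κ (φ n))) * M) (iR (m (φ n))) := rfl
      rw [h5, Ex, FF_diag_mul, prod_exp (hω.sum_zero _), one_mul]
    rw [h4]
    exact hM _ (hm _)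
  have h4 : |∏ i, y₀ i| ≤ ν' := by
    refine le_of_tendsto h2 (Eventually.of_forall fun n => ?_)
    have h5 : ∏ i, y (φ n) i = FF (u * M) (iR (m (φ n))) := by
      simp only [hy]
      rw [Finset.prod_mul_distrib, prod_exp (hω.sum_zero _), one_mul]
      rfl
    rw [h5]
    exact (hF _).le
  linarith

/-- limits of a unipotent modification -/
theorem limP_of_factor (hω : IsPath ω) {u M h : Matrix (Fin d) (Fin d) ℝ}
    (hu1 : ∀ i, u i i = 1) (hu : ∀ i j, i ≠ j → u i j ≠ 0 → Below ω i j)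
    (hh : h ∈ LimP ω (u * M)) : h ∈ LimP ω M := by
  obtain ⟨κ, γ, hκ, hγ, hlim⟩ := hh
  refine ⟨κ, γ, hκ, hγ, ?_⟩
  have hv1 := conj_tendsto hu1 hu hκ
  have hvi := tendsto_inv_of hv1 (by rw [det_one]; exact one_ne_zero)
  have h1 := tendsto_mul_of hvi hlim
  rw [inv_one, Matrix.one_mul] at h1
  refine h1.congr fun n => ?_
  have hvd : (Ex (ω (κ n)) * u * Ex (-ω (κ n))).det = 1 := by
    rw [det_mul, det_mul, Ex_det (hω.sum_zero _), Ex_det (neg_sum (hω.sum_zero _)),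
      det_u hu1 hu, one_mul, one_mul]
  rw [conj_mul, Matrix.mul_assoc (Ex (ω (κ n)) * u * Ex (-ω (κ n))), ← Matrix.mul_assoc,
    Matrix.nonsing_inv_mul _ (by rw [hvd]; exact isUnit_one), Matrix.one_mul]

end Pool.Agent.K3h42.OC
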