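import Mathlib
import Pool.Agent.K3h42.OC.PConv
import Pool.Agent.K3h4.OL.Main
import Pool.Agent.K3h4.OL.Help

/-! # A limit with the same intersection of hyperplanes -/

open NumberField Filter Topology Matrix

namespace Pool.Agent.K3h42.OC

open H715R2 Pool.Agent.K3h4.OC Pool.Agent.K3h4.OL

section field

variable {d : ℕ} {K : Type*} [Field K] [NumberField K]

/-- the element with given integer coordinates -/
noncomputable def elt (b : Module.Basis (Fin d) ℚ K) (m : Fin d → ℤ) : K := ∑ j, (m j : ℚ) • b j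

lemma elt_inj (b : Module.Basis (Fin d) ℚ K) {m m' : Fin d → ℤ} (h : elt b m = elt b m') :
    m = m' := by
  have h1 : ∑ j, ((m j : ℚ) - (m' j : ℚ)) • b j = 0 := by
    simp only [sub_smul, Finset.sum_sub_distrib]
    exact sub_eq_zero.2 h
  have h2 := Fintype.linearIndependent_iff.1 b.linearIndependent _ h1
  funext j
  have h3 := sub_eq_zero.1 (h2 j)
  exact_mod_cast h3

/-- the integer matrix of a unit -/
theorem exists_unit_matrix (D : Sys K d) (v : (𝓞 K)ˣ) :
    ∃ γ : Matrix (Fin d) (Fin d) ℤ, IsUnit γ.det ∧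
      (∀ j : Fin d, ∑ k, (γ k j : ℚ) • D.b k = uu D.N v * D.b j) ∧
      ∀ (τ : K →+* ℂ) (j : Fin d), ∑ k, ((γ k j : ℤ) : ℂ) * τ (D.b k) =
        τ (uu D.N v) * τ (D.b j) := by
  classical
  have key : ∀ w : (𝓞 K)ˣ, ∃ γ : Matrix (Fin d) (Fin d) ℤ,
      ∀ m : Fin d → ℤ, elt D.b (γ *ᵥ m) = uu D.N w * elt D.b m := by
    intro w
    choose y hy using fun j : Fin d => D.act w (Pi.single j 1)
    refine ⟨Matrix.of fun k j => y j k, fun m => ?_⟩
    have hy' : ∀ j, ∑ k, (y j k : ℚ) • D.b k = uu D.N w * D.b j := by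
      intro j
      rw [hy j, uu]
      congr 1
      rw [Finset.sum_eq_single j]
      · simp
      · intro k _ hk
        simp [Pi.single_eq_of_ne hk]
      · simp
    unfold elt
    calc ∑ k, ((((Matrix.of fun k j => y j k) *ᵥ m) k : ℤ) : ℚ) • D.b k
        = ∑ k, ∑ j, ((m j : ℚ) * (y j k : ℚ)) • D.b k := by
          refine Finset.sum_congr rfl fun k _ => ?_
          rw [← Finset.sum_smul]
          congr 1
          rw [Matrix.mulVec, dotProduct]
          push_cast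
          refine Finset.sum_congr rfl fun j _ => ?_
          rw [Matrix.of_apply, mul_comm]
      _ = ∑ j, (m j : ℚ) • (uu D.N w * D.b j) := by
          rw [Finset.sum_comm]
          refine Finset.sum_congr rfl fun j _ => ?_
          rw [← hy' j, Finset.smul_sum]
          refine Finset.sum_congr rfl fun k _ => ?_
          rw [smul_smul]
      _ = _ := by
          rw [Finset.mul_sum]
          refine Finset.sum_congr rfl fun j _ => ?_
          rw [mul_smul_comm]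
  obtain ⟨γ, hγ⟩ := key v
  obtain ⟨γ', hγ'⟩ := key v⁻¹
  have hmul : γ' * γ = 1 := by
    have h1 : ∀ m : Fin d → ℤ, (γ' * γ) *ᵥ m = m := by
      intro m
      apply elt_inj D.b
      rw [← Matrix.mulVec_mulVec, hγ', hγ, ← mul_assoc, ← uu_mul, inv_mul_cancel, uu_one,
        one_mul]
    ext i j
    have h2 := congrFun (h1 (Pi.single j 1)) i
    rw [Matrix.mulVec_single_one] at h2
    rw [Matrix.one_apply, ← Pi.single_apply]
    simpa using h2
  have hcol : ∀ j : Fin d, ∑ k, (γ k j : ℚ) • D.b k = uu D.N v * D.b j := by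
    intro j
    have h1 := hγ (Pi.single j 1)
    unfold elt at h1
    have h2 : ∑ k, ((Pi.single j 1 : Fin d → ℤ) k : ℚ) • D.b k = D.b j := by
      rw [Finset.sum_eq_single j]
      · simp
      · intro k _ hk
        simp [Pi.single_eq_of_ne hk]
      · simp
    rw [h2] at h1
    rw [← h1]
    refine Finset.sum_congr rfl fun k _ => ?_
    rw [Matrix.mulVec_single_one]
    rfl
  refine ⟨γ, Matrix.isUnit_det_of_left_inverse hmul, hcol, fun τ j => ?_⟩
  rw [← map_mul, ← hcol j, map_sum]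
  refine Finset.sum_congr rfl fun k _ => ?_
  rw [Algebra.smul_def, map_mul]
  simp

/-- the unit matrices are polynomials in `A` -/
lemma unit_poly {b : Module.Basis (Fin d) ℚ K} {A γ : Matrix (Fin d) (Fin d) ℚ} {lam z : K}
    (hlam : ∀ k, ∑ j, (A j k) • b j = lam * b k)
    (hinj : Function.Injective (fun τ : K →+* ℂ => τ lam))
    (hγ : ∀ k, ∑ j, (γ j k) • b j = z * b k) :
    ∃ Q : Polynomial ℚ, Polynomial.aeval A Q = γ := by
  classical
  have htop : IntermediateField.adjoin ℚ {lam} = ⊤ :=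
    top_of_mem lam hinj _ (IntermediateField.mem_adjoin_simple_self ℚ lam)
  have hz : z ∈ (IntermediateField.adjoin ℚ {lam}).toSubalgebra := by
    rw [htop]; trivial
  rw [IntermediateField.adjoin_simple_toSubalgebra_of_isAlgebraic
    (Algebra.IsAlgebraic.isAlgebraic lam), Algebra.adjoin_singleton_eq_range_aeval] at hz
  obtain ⟨Q, hQ⟩ := hz
  refine ⟨Q, ?_⟩
  have key : ∀ (B : Matrix (Fin d) (Fin d) ℚ) (y : K), (∀ k, ∑ j, (B j k) • b j = y * b k) →
      Matrix.toLinAlgEquiv b B = Algebra.lmul ℚ K y := by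
    intro B y hB
    refine b.ext fun k => ?_
    rw [Matrix.toLinAlgEquiv_self, hB]
    rfl
  apply (Matrix.toLinAlgEquiv b).injective
  rw [key γ z hγ]
  have h1 : Matrix.toLinAlgEquiv b (Polynomial.aeval A Q) =
      Polynomial.aeval (Matrix.toLinAlgEquiv b A) Q :=
    (Polynomial.aeval_algHom_apply (Matrix.toLinAlgEquiv b).toAlgHom A Q).symm
  rw [h1, key A lam hlam, Polynomial.aeval_algHom_apply]
  congr 1

end field

section kernels

variable {d : ℕ}

/-- the rows in `I` as a linear map -/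
noncomputable def rowsMap (g : Matrix (Fin d) (Fin d) ℝ) (I : Finset (Fin d)) :
    (Fin d → ℝ) →ₗ[ℝ] (I → ℝ) :=
  (LinearMap.funLeft ℝ ℝ (Subtype.val : I → Fin d)).comp g.mulVecLin

lemma mem_ker_rowsMap (g : Matrix (Fin d) (Fin d) ℝ) (I : Finset (Fin d)) (x : Fin d → ℝ) :
    x ∈ LinearMap.ker (rowsMap g I) ↔ ∀ i ∈ I, (g *ᵥ x) i = 0 := by
  rw [LinearMap.mem_ker]
  constructor
  · intro h i hi
    exact congrFun h ⟨i, hi⟩
  · intro h
    funext i
    exact h i.1 i.2

lemma finrank_ker_rowsMap (g : Matrix (Fin d) (Fin d) ℝ) (hg : g.det ≠ 0)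
    (I : Finset (Fin d)) : Module.finrank ℝ (LinearMap.ker (rowsMap g I)) + I.card = d := by
  have hsurj : Function.Surjective (rowsMap g I) := by
    unfold rowsMap
    rw [LinearMap.coe_comp]
    refine (LinearMap.funLeft_surjective_of_injective ℝ ℝ _ Subtype.val_injective).comp ?_
    intro y
    refine ⟨g⁻¹ *ᵥ y, ?_⟩
    rw [Matrix.mulVecLin_apply, Matrix.mulVec_mulVec,
      Matrix.mul_nonsing_inv _ (isUnit_iff_ne_zero.2 hg), Matrix.one_mulVec]
  have h1 := LinearMap.finrank_range_add_finrank_ker (rowsMap g I)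
  rw [LinearMap.range_eq_top.2 hsurj, finrank_top, Module.finrank_fintype_fun_eq_card,
    Module.finrank_fintype_fun_eq_card, Fintype.card_coe, Fintype.card_fin] at h1
  omega

/-- one inclusion of the kernels is enough -/
lemma kernels_eq {g h : Matrix (Fin d) (Fin d) ℝ} (hg : g.det ≠ 0) (hh : h.det ≠ 0)
    (I : Finset (Fin d))
    (hle : ∀ x : Fin d → ℝ, (∀ i ∈ I, (g *ᵥ x) i = 0) → ∀ i ∈ I, (h *ᵥ x) i = 0)
    (x : Fin d → ℝ) : (∀ i ∈ I, (h *ᵥ x) i = 0) ↔ ∀ i ∈ I, (g *ᵥ x) i = 0 := by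
  have h1 : LinearMap.ker (rowsMap g I) ≤ LinearMap.ker (rowsMap h I) := by
    intro y hy
    rw [mem_ker_rowsMap] at hy ⊢
    exact hle y hy
  have h2 := finrank_ker_rowsMap g hg I
  have h3 := finrank_ker_rowsMap h hh I
  have h4 := Submodule.eq_of_le_of_finrank_eq h1 (by omega)
  rw [← mem_ker_rowsMap, ← mem_ker_rowsMap, h4]

end kernels

variable {d : ℕ} {ω : ℕ → Fin d → ℝ}

/-- **A limit with the same intersection of hyperplanes.** -/
theorem exists_limit_kernel (hd : 0 < d) (hω : IsPath ω) (A : Matrix (Fin d) (Fin d) ℚ)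
    (hA : Irreducible A.charpoly) (g : Matrix (Fin d) (Fin d) ℝ) (hg : g.det ≠ 0)
    (I : Finset (Fin d)) (hI : I.card < d) (hinv : Pres g I A)
    (hcond : Nat.Coprime I.card d ∨
      ∀ B C : Matrix (Fin d) (Fin d) ℚ, Pres g I B → Pres g I C → B * C = C * B)
    (C : ℝ) (hC : ∃ᶠ k in atTop, ∃ t : ℝ, 0 ≤ t ∧
      ∀ i, |ω k i - t * (if i ∈ I then (d : ℝ) - I.card else -(I.card : ℝ))| ≤ C) :
    ∃ h ∈ LimP ω g, ∀ x : Fin d → ℝ, (∀ i ∈ I, (h *ᵥ x) i = 0) ↔ ∀ i ∈ I, (g *ᵥ x) i = 0 := by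
  classical
  obtain ⟨K, _, _, D, lam, hDh, hDI, hlam, hinj⟩ := exists_sys hd A hA g hg I hinv hcond
  subst hDh
  subst hDI
  -- an embedding outside `J`
  obtain ⟨τ₀, hτ₀⟩ : ∃ τ₀ : K →+* ℂ, τ₀ ∉ D.J := by
    by_contra hcon
    push Not at hcon
    have h1 : D.J = Finset.univ := Finset.eq_univ_iff_forall.2 hcon
    have h2 := D.hcard
    rw [h1, Finset.card_univ, D.card_emb] at h2
    omega
  set G : Dir D := D.dir1 hd τ₀ hτ₀ with hG
  have hGE : ∀ i, G.E i = if i ∈ D.I then -((d : ℝ) - D.I.card) else D.I.card := fun i => rfl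
  obtain ⟨κ, hκ, hκt⟩ := extraction_of_frequently_atTop hC
  choose t ht0 ht using hκt
  obtain ⟨R, hR, hunit⟩ := exists_unit_pow_near K D.N D.hN
  have hw : ∀ m : ℕ, ∃ w : (𝓞 K)ˣ, ∀ τ : K →+* ℂ, |Real.log ‖τ (uu D.N w)‖ - t m * G.e τ| ≤ R := by
    intro m
    obtain ⟨w, hw⟩ := hunit (fun v => t m * G.p v) (by
      rw [← Finset.mul_sum]
      have : ∑ τ : K →+* ℂ, G.p (InfinitePlace.mk τ) = 0 := by
        rw [← G.he]
        exact Finset.sum_congr rfl fun τ _ => (G.hp τ).symm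
      rw [this, mul_zero])
    refine ⟨w, fun τ => ?_⟩
    rw [G.hp τ]
    exact hw τ
  choose w hw using hw
  choose γ hγ hγb hγe using fun k => exists_unit_matrix D (w k)
  set Y : ℕ → Matrix (Fin d) (Fin d) ℝ := fun k => Ex (ω (κ k)) * D.h * zR (γ k) with hY
  -- entries
  have hent : ∀ k i j, ((Y k i j : ℝ) : ℂ) = ∑ τ : K →+* ℂ, (D.H i τ * τ (D.b j)) *
      (((Real.exp (ω (κ k) i) : ℝ) : ℂ) * τ (uu D.N (w k))) := by
    intro k i j
    have h1 : (Y k i j : ℝ) = Real.exp (ω (κ k) i) * ∑ l, D.h i l * (γ k l j : ℝ) := by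
      simp only [hY]
      rw [Matrix.mul_assoc, Ex, diagonal_mul, Matrix.mul_apply]
      rfl
    rw [h1]
    push_cast
    have h2 : ∑ l, (D.h i l : ℂ) * ((γ k l j : ℤ) : ℂ) =
        ∑ τ : K →+* ℂ, D.H i τ * (τ (uu D.N (w k)) * τ (D.b j)) := by
      simp only [D.hH, Finset.sum_mul]
      rw [Finset.sum_comm]
      refine Finset.sum_congr rfl fun τ _ => ?_
      rw [← hγe k τ j, Finset.mul_sum]
      refine Finset.sum_congr rfl fun l _ => ?_
      ring
    rw [h2, Finset.mul_sum]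
    refine Finset.sum_congr rfl fun τ _ => ?_
    ring
  set R' : ℝ := ∑ i, ∑ j, ∑ τ : K →+* ℂ, ‖D.H i τ * τ (D.b j)‖ * Real.exp (C + R) with hR'
  have hbd : ∀ k i j, |Y k i j| ≤ R' := by
    intro k i j
    have h1 : |Y k i j| = ‖((Y k i j : ℝ) : ℂ)‖ := by
      rw [Complex.norm_real, Real.norm_eq_abs]
    rw [h1, hent]
    have h2 : ∀ τ : K →+* ℂ, ‖(D.H i τ * τ (D.b j)) *
        (((Real.exp (ω (κ k) i) : ℝ) : ℂ) * τ (uu D.N (w k)))‖ ≤
        ‖D.H i τ * τ (D.b j)‖ * Real.exp (C + R) := by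
      intro τ
      by_cases hH0 : D.H i τ = 0
      · simp [hH0]
      rw [norm_mul]
      refine mul_le_mul_of_nonneg_left ?_ (norm_nonneg _)
      rw [norm_mul, Complex.norm_real, Real.norm_eq_abs, abs_of_pos (Real.exp_pos _)]
      have h3 : 0 < ‖τ (uu D.N (w k))‖ := norm_pos_iff.2 (tau_ne _ _ _)
      rw [← Real.exp_log h3, ← Real.exp_add]
      apply Real.exp_le_exp.2
      have h4 := (abs_le.1 (hw k τ)).2
      have h5 := (abs_le.1 (ht k i)).2
      have h6 := G.hE i τ hH0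
      have h7 : t k * G.e τ ≤ t k * G.E i := mul_le_mul_of_nonneg_left h6 (ht0 k)
      have h8 : t k * (if i ∈ D.I then (d : ℝ) - D.I.card else -(D.I.card : ℝ)) =
          - (t k * G.E i) := by
        rw [hGE]
        split_ifs <;> ring
      rw [h8] at h5
      linarith
    refine (norm_sum_le _ _).trans ((Finset.sum_le_sum fun τ _ => h2 τ).trans ?_)
    have h9 : ∀ a b, 0 ≤ ∑ τ : K →+* ℂ, ‖D.H a τ * τ (D.b b)‖ * Real.exp (C + R) := fun a b =>
      Finset.sum_nonneg fun τ _ => mul_nonneg (norm_nonneg _) (Real.exp_pos _).le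
    calc ∑ τ : K →+* ℂ, ‖D.H i τ * τ (D.b j)‖ * Real.exp (C + R)
        ≤ ∑ j, ∑ τ : K →+* ℂ, ‖D.H i τ * τ (D.b j)‖ * Real.exp (C + R) :=
          Finset.single_le_sum (f := fun j => ∑ τ : K →+* ℂ, ‖D.H i τ * τ (D.b j)‖ *
            Real.exp (C + R)) (fun b _ => h9 i b) (Finset.mem_univ j)
      _ ≤ _ := Finset.single_le_sum (f := fun i => ∑ j, ∑ τ : K →+* ℂ, ‖D.H i τ * τ (D.b j)‖ *
            Real.exp (C + R)) (fun a _ => Finset.sum_nonneg fun b _ => h9 a b)
            (Finset.mem_univ i)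
  obtain ⟨h, -, φ, hφ, hlim⟩ := (isCompact_box (d := d) R').tendsto_subseq
    (x := Y) (fun k => hbd k)
  have hmem : h ∈ LimP ω D.h := ⟨fun n => κ (φ n), fun n => γ (φ n),
    hκ.tendsto_atTop.comp hφ.tendsto_atTop, fun n => hγ _, hlim⟩
  have hhdet : h.det ≠ 0 := by
    rw [← abs_ne_zero, LimP_det hω hmem, abs_ne_zero]
    exact hg
  refine ⟨h, hmem, kernels_eq hg hhdet D.I fun x hx i hi => ?_⟩
  -- the kernels contain that of `g`
  have hker : ∀ k, (Y k *ᵥ x) i = 0 := by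
    intro k
    obtain ⟨Q, hQ⟩ := unit_poly (γ := (γ k).map (Int.cast : ℤ → ℚ)) hlam hinj (hγb k)
    have h1 := preserves_aeval (L := D.h) (I := D.I) hinv Q x hx i hi
    rw [hQ] at h1
    have h2 : ((γ k).map (Int.cast : ℤ → ℚ)).map (Rat.cast : ℚ → ℝ) = zR (γ k) := by
      ext a b
      simp [zR, Matrix.map_apply]
    rw [h2] at h1
    simp only [hY]
    rw [Matrix.mul_assoc, ← Matrix.mulVec_mulVec, Ex, Matrix.mulVec_diagonal,
      ← Matrix.mulVec_mulVec]
    have h3 : (D.h *ᵥ (zR (γ k) *ᵥ x)) i = 0 := h1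
    rw [h3, mul_zero]
  have hc : Continuous fun Z : Matrix (Fin d) (Fin d) ℝ => (Z *ᵥ x) i :=
    (continuous_apply i).comp (continuous_id.matrix_mulVec continuous_const)
  have h4 := (hc.tendsto h).comp hlim
  have h5 : ((fun Z : Matrix (Fin d) (Fin d) ℝ => (Z *ᵥ x) i) ∘ Y ∘ φ) = fun _ => (0 : ℝ) := by
    funext n
    exact hker _
  rw [h5] at h4
  exact (tendsto_nhds_unique h4 tendsto_const_nhds)

/-- the limit is algebraic -/
theorem exists_limit_propInt (hd : 3 ≤ d) (hω : IsPath ω) (A : Matrix (Fin d) (Fin d) ℚ)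
    (hA : Irreducible A.charpoly) (g : Matrix (Fin d) (Fin d) ℝ) (hg : g.det ≠ 0)
    {ν : ℝ} (hν : 0 < ν) (hL : LowP ω g ν)
    (I : Finset (Fin d)) (hI : I.card < d) (hne : I.Nonempty) (hinv : Pres g I A)
    (hcond : Nat.Coprime I.card d ∨
      ∀ B C : Matrix (Fin d) (Fin d) ℚ, Pres g I B → Pres g I C → B * C = C * B)
    (C : ℝ) (hC : ∃ᶠ k in atTop, ∃ t : ℝ, 0 ≤ t ∧
      ∀ i, |ω k i - t * (if i ∈ I then (d : ℝ) - I.card else -(I.card : ℝ))| ≤ C) :
    ∃ h ∈ LimP ω g, PropInt h := by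
  obtain ⟨h, hh, hker⟩ := exists_limit_kernel (by omega) hω A hA g hg I hI hinv hcond C hC
  have hPres : ∀ B : Matrix (Fin d) (Fin d) ℚ, Pres h I B ↔ Pres g I B := by
    intro B
    unfold Pres
    simp only [hker]
  have hhdet : h.det ≠ 0 := by
    rw [← abs_ne_zero, LimP_det hω hh, abs_ne_zero]
    exact hg
  have hnu := LimP_nu hω hL hh
  obtain ⟨K, _, _, D, hDh, hDI⟩ := exists_blk (by omega) A hA h hhdet ν hν hnu I
    ((hPres A).2 hinv) (hcond.imp_right fun h1 B C hB hC => h1 B C ((hPres B).1 hB)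
      ((hPres C).1 hC))
  exact ⟨h, hh, propInt_of_blk hd D (by rw [hDI]; exact hne) h hhdet
    (by rw [hDh]; exact subset_closure (mem_orb_self h)) ν hν hnu⟩

end Pool.Agent.K3h42.OC
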