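import Mathlib
import Pool.Agent.K3h4.OC.Point
import Pool.Agent.K3h4.OL.Help
import Pool.Agent.K3h42.OC.PSemi

/-! # Rational matrices and algebraic points, with a lower bound near one ray

Adapted from `Pool.Agent.K3h4.OL.Point` and `Pool.Agent.K3h4.OL.Form`. -/

open Filter Topology H715R2 Matrix
open Pool.Agent.K3h4.OC

namespace Pool.Agent.K3h42.OC

variable {d : ℕ}

/-- A nonzero rational matrix which preserves the intersection is invertible. -/
theorem det_ne_zero_of_invariant (h : Matrix (Fin d) (Fin d) ℝ) (hdet : h.det ≠ 0)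
    (ν : ℝ) (hν : 0 < ν) (I : Finset (Fin d)) (hIcard : I.card < d) (hnear : NearR h I ν)
    (hco : Nat.Coprime I.card d)
    (B : Matrix (Fin d) (Fin d) ℚ)
    (hinv : ∀ x : Fin d → ℝ, (∀ i ∈ I, (h *ᵥ x) i = 0) →
      ∀ i ∈ I, (h *ᵥ ((B.map (Rat.cast : ℚ → ℝ)) *ᵥ x)) i = 0) (hB : B ≠ 0) : B.det ≠ 0 := by
  classical
  intro hdB
  obtain ⟨BR, hBR⟩ : ∃ BR : Matrix (Fin d) (Fin d) ℝ, BR = B.map (Rat.cast : ℚ → ℝ) := ⟨_, rfl⟩
  obtain ⟨c, hc⟩ := rows_invariant hdet I hinv
  rw [← hBR] at hc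
  obtain ⟨k, hk⟩ : ∃ k, Module.finrank ℚ (LinearMap.ker B.mulVecLin) = k := ⟨_, rfl⟩
  obtain ⟨k', hk'⟩ : ∃ k', Module.finrank ℚ (LinearMap.range B.mulVecLin) = k' := ⟨_, rfl⟩
  have hsum : k' + k = d := by
    have h1 := LinearMap.finrank_range_add_finrank_ker B.mulVecLin
    rw [hk, hk', Module.finrank_fintype_fun_eq_card, Fintype.card_fin] at h1
    exact h1
  have hkpos : 0 < k := by
    rw [← hk]
    obtain ⟨v, hv0, hv⟩ := Matrix.exists_mulVec_eq_zero_iff.2 hdB
    have : Nontrivial (LinearMap.ker B.mulVecLin) := by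
      refine ⟨⟨⟨v, ?_⟩, 0, ?_⟩⟩
      · rw [LinearMap.mem_ker, Matrix.mulVecLin_apply]; exact hv
      · intro h0
        exact hv0 (congrArg Subtype.val h0)
    exact Module.finrank_pos
  have hk'pos : 0 < k' := by
    rw [← hk']
    obtain ⟨j, hj⟩ : ∃ j, B *ᵥ Pi.single j 1 ≠ 0 := by
      by_contra hcon
      push Not at hcon
      apply hB
      ext i j
      have h1 := congrFun (hcon j) i
      rw [Matrix.mulVec_single_one] at h1
      exact h1
    have : Nontrivial (LinearMap.range B.mulVecLin) := by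
      refine ⟨⟨⟨B *ᵥ Pi.single j 1, ?_⟩, 0, ?_⟩⟩
      · exact ⟨Pi.single j 1, rfl⟩
      · intro h0
        exact hj (congrArg Subtype.val h0)
    exact Module.finrank_pos
  obtain ⟨U, Y, hYU, hUm⟩ := int_basis _ hk
  obtain ⟨U', Y', hYU', hUm'⟩ := int_basis _ hk'
  have s1 := semistable h hdet ν hν I hIcard hnear hkpos U Y hYU
  have s2 := semistable h hdet ν hν I hIcard hnear hk'pos U' Y' hYU'
  obtain ⟨UR, hUR⟩ : ∃ UR : Matrix (Fin d) (Fin k) ℝ, UR = U.map (Int.cast : ℤ → ℝ) := ⟨_, rfl⟩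
  obtain ⟨UR', hUR'⟩ : ∃ UR' : Matrix (Fin d) (Fin k') ℝ, UR' = U'.map (Int.cast : ℤ → ℝ) :=
    ⟨_, rfl⟩
  rw [← hUR] at s1
  rw [← hUR'] at s2
  -- relations
  have hBU : BR * UR = 0 := by
    ext i s
    have h1 := hUm s
    rw [LinearMap.mem_ker, Matrix.mulVecLin_apply] at h1
    have h2 := congrFun h1 i
    rw [Matrix.mulVec, dotProduct, Pi.zero_apply] at h2
    rw [Matrix.mul_apply, hBR, hUR, Matrix.zero_apply]
    have h3 := congrArg (fun t : ℚ => (t : ℝ)) h2
    push_cast at h3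
    simpa [Matrix.map_apply] using h3
  obtain ⟨Q, hQ⟩ : ∃ Q : Matrix (Fin d) (Fin k') ℝ, UR' = BR * Q := by
    choose q hq using hUm'
    refine ⟨Matrix.of fun j s => (q s j : ℝ), ?_⟩
    ext i s
    have h1 := congrFun (hq s) i
    rw [Matrix.mulVecLin_apply, Matrix.mulVec, dotProduct] at h1
    rw [Matrix.mul_apply, hBR, hUR', Matrix.map_apply]
    have h3 := congrArg (fun t : ℚ => (t : ℝ)) h1
    push_cast at h3
    rw [← h3]
    rfl
  -- the span of the rows
  obtain ⟨S, hS⟩ : ∃ S : Submodule ℝ (Fin d → ℝ),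
      S = Submodule.span ℝ ((fun i => h i) '' (I : Set (Fin d))) := ⟨_, rfl⟩
  have hSfr : Module.finrank ℝ S = I.card := by
    have hli : LinearIndependent ℝ (fun i => h i) := Matrix.linearIndependent_rows_of_det_ne_zero hdet
    have h1 : LinearIndependent ℝ (fun i : I => h i.1) := hli.comp (fun i : I => i.1) Subtype.val_injective
    have h2 := finrank_span_eq_card h1
    rw [Fintype.card_coe] at h2
    have h3 : Set.range (fun i : I => h i.1) = (fun i => h i) '' (I : Set (Fin d)) := by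
      ext x
      simp
    rw [← h2, hS, h3]
  have hmapU : ∀ {l : ℕ} (X : Matrix (Fin d) (Fin l) ℝ),
      Submodule.span ℝ ((fun i => (h * X) i) '' (I : Set (Fin d))) = S.map X.vecMulLinear := by
    intro l X
    rw [hS, Submodule.map_span]
    congr 1
    ext x
    constructor
    · rintro ⟨i, hi, rfl⟩
      exact ⟨h i, ⟨i, hi, rfl⟩, rfl⟩
    · rintro ⟨_, ⟨i, hi, rfl⟩, rfl⟩
      exact ⟨i, hi, rfl⟩
  rw [hmapU] at s1 s2
  -- invariance of the span
  have hSB : S.map BR.vecMulLinear ≤ S := by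
    rw [← hmapU BR, Submodule.span_le]
    rintro _ ⟨i, hi, rfl⟩
    have h1 : (h * BR) i = ∑ i' ∈ I, c i i' • h i' := by
      funext l
      rw [hc i hi l, Finset.sum_apply]
      rfl
    show (h * BR) i ∈ S
    rw [h1, hS]
    exact Submodule.sum_mem _ fun i' hi' => Submodule.smul_mem _ _ (Submodule.subset_span ⟨i', hi', rfl⟩)
  have hker : ∀ x ∈ S.map BR.vecMulLinear, UR.vecMulLinear x = 0 := by
    rintro _ ⟨y, hy, rfl⟩
    rw [Matrix.vecMulLinear_apply, Matrix.vecMulLinear_apply, vecMul_vecMul, hBU, vecMul_zero]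
  have hr' : Module.finrank ℝ (S.map UR'.vecMulLinear) ≤ Module.finrank ℝ (S.map BR.vecMulLinear) := by
    have h1 : S.map UR'.vecMulLinear = (S.map BR.vecMulLinear).map Q.vecMulLinear := by
      rw [← Submodule.map_comp]
      have h2 : UR'.vecMulLinear = Q.vecMulLinear ∘ₗ BR.vecMulLinear := by
        refine LinearMap.ext fun x => ?_
        rw [LinearMap.comp_apply, Matrix.vecMulLinear_apply, Matrix.vecMulLinear_apply,
          Matrix.vecMulLinear_apply, vecMul_vecMul, hQ]
      rw [h2]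
    rw [h1]
    exact Submodule.finrank_map_le _ _
  have hr : Module.finrank ℝ (S.map BR.vecMulLinear) + Module.finrank ℝ (S.map UR.vecMulLinear) ≤
      I.card := by
    have h1 := LinearMap.finrank_range_add_finrank_ker (UR.vecMulLinear.domRestrict S)
    rw [hSfr] at h1
    have h2 : LinearMap.range (UR.vecMulLinear.domRestrict S) = S.map UR.vecMulLinear := by
      ext x
      constructor
      · rintro ⟨y, rfl⟩
        exact ⟨y.1, y.2, rfl⟩
      · rintro ⟨y, hy, rfl⟩
        exact ⟨⟨y, hy⟩, rfl⟩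
    rw [h2] at h1
    have h3 : S.map BR.vecMulLinear ≤
        (LinearMap.ker (UR.vecMulLinear.domRestrict S)).map S.subtype := by
      intro x hx
      refine ⟨⟨x, hSB hx⟩, ?_, rfl⟩
      rw [SetLike.mem_coe, LinearMap.mem_ker]
      exact hker x hx
    have h4 := Submodule.finrank_mono h3
    have h5 := Submodule.finrank_map_le S.subtype (LinearMap.ker (UR.vecMulLinear.domRestrict S))
    omega
  obtain ⟨r, hrr⟩ : ∃ r, r = Module.finrank ℝ (S.map UR.vecMulLinear) := ⟨_, rfl⟩
  obtain ⟨r', hrr'⟩ : ∃ r', r' = Module.finrank ℝ (S.map UR'.vecMulLinear) := ⟨_, rfl⟩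
  rw [← hrr] at s1 hr
  rw [← hrr'] at s2 hr'
  have hsumr : r + r' ≤ I.card := by omega
  have e1 : k * I.card = r * d := by
    have h1 : (r + r') * d ≤ I.card * d := Nat.mul_le_mul_right d hsumr
    have h2 : (k + k') * I.card = I.card * d := by
      rw [add_comm k k', hsum, mul_comm]
    have h3 : (k + k') * I.card = k * I.card + k' * I.card := by ring
    have h4 : (r + r') * d = r * d + r' * d := by ring
    omega
  have hdvd : d ∣ k * I.card := ⟨r, by rw [e1, mul_comm]⟩
  have h6 : d ∣ k := (Nat.Coprime.dvd_of_dvd_mul_right hco.symm hdvd)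
  have h7 := Nat.le_of_dvd hkpos h6
  omega

/-- If `n - 1` of the forms vanish at a vector with coordinates in a real number field of degree at
most `n`, then the line is preserved by a rational matrix with irreducible characteristic
polynomial. -/
theorem exists_matrix_of_point (hd : 2 ≤ d) (h : Matrix (Fin d) (Fin d) ℝ) (hdet : h.det ≠ 0)
    (ν : ℝ) (hν : 0 < ν) (K : IntermediateField ℚ ℝ) [FiniteDimensional ℚ K]
    (hK : Module.finrank ℚ K ≤ d) (w : Fin d → ℝ) (hw0 : w ≠ 0) (hwK : ∀ j, w j ∈ K)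
    (i₀ : Fin d) (hnear : NearR h (Finset.univ.erase i₀) ν)
    (hw : ∀ i, i ≠ i₀ → (h *ᵥ w) i = 0) :
    ∃ A : Matrix (Fin d) (Fin d) ℚ, Irreducible A.charpoly ∧
      (∃ θ : ℝ, (A.map (Rat.cast : ℚ → ℝ)) *ᵥ w = θ • w) ∧
      Pres h (Finset.univ.erase i₀) A := by
  classical
  -- the line
  have hline : ∀ x : Fin d → ℝ, (∀ i ∈ Finset.univ.erase i₀, (h *ᵥ x) i = 0) →
      ∃ c : ℝ, x = c • w := by
    intro x hx
    have hinj : ∀ y : Fin d → ℝ, h *ᵥ y = 0 → y = 0 := fun y hy =>
      Matrix.eq_zero_of_mulVec_eq_zero hdet hy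
    have hwi : (h *ᵥ w) i₀ ≠ 0 := by
      intro h0
      apply hw0
      apply hinj
      funext i
      by_cases hi : i = i₀
      · rw [hi]; exact h0
      · exact hw i hi
    refine ⟨(h *ᵥ x) i₀ / (h *ᵥ w) i₀, ?_⟩
    rw [← sub_eq_zero]
    apply hinj
    funext i
    rw [mulVec_sub, mulVec_smul, Pi.sub_apply, Pi.smul_apply, smul_eq_mul, Pi.zero_apply]
    by_cases hi : i = i₀
    · rw [hi]; field_simp; ring
    · rw [hw i hi, hx i (Finset.mem_erase.2 ⟨hi, Finset.mem_univ i⟩)]; ring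
  have hcardI : (Finset.univ.erase i₀ : Finset (Fin d)).card = d - 1 := by
    rw [Finset.card_erase_of_mem (Finset.mem_univ _), Finset.card_univ, Fintype.card_fin]
  have hco : Nat.Coprime (Finset.univ.erase i₀ : Finset (Fin d)).card d := by
    rw [hcardI]
    have h1 : Nat.Coprime (d - 1) (d - 1 + 1) := Nat.coprime_self_add_right.2 (Nat.coprime_one_right _)
    rwa [Nat.sub_add_cancel (by omega : 1 ≤ d)] at h1
  -- independence of the coordinates
  obtain ⟨wK, hwKv⟩ : ∃ wK : Fin d → K, ∀ j, ((wK j : K) : ℝ) = w j :=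
    ⟨fun j => ⟨w j, hwK j⟩, fun j => rfl⟩
  have hli : LinearIndependent ℚ wK := by
    rw [Fintype.linearIndependent_iff]
    intro q hq
    by_contra hcon
    push Not at hcon
    obtain ⟨j₀, hj₀⟩ := hcon
    obtain ⟨B, hB⟩ : ∃ B : Matrix (Fin d) (Fin d) ℚ, ∀ i j, B i j = if i = j₀ then q j else 0 :=
      ⟨fun i j => if i = j₀ then q j else 0, fun i j => rfl⟩
    have hqw : ∑ j, (q j : ℝ) * w j = 0 := by
      have h1 := congrArg (fun z : K => (z : ℝ)) hq
      simp only [ZeroMemClass.coe_zero] at h1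
      rw [← h1]
      push_cast
      refine Finset.sum_congr rfl fun j _ => ?_
      rw [Rat.smul_def, hwKv]
    have hBw : (B.map (Rat.cast : ℚ → ℝ)) *ᵥ w = 0 := by
      funext i
      rw [Matrix.mulVec, dotProduct, Pi.zero_apply]
      by_cases hi : i = j₀
      · rw [← hqw]
        refine Finset.sum_congr rfl fun j _ => ?_
        rw [Matrix.map_apply, hB, if_pos hi]
      · refine Finset.sum_eq_zero fun j _ => ?_
        rw [Matrix.map_apply, hB, if_neg hi]
        simp
    refine det_ne_zero_of_invariant h hdet ν hν (Finset.univ.erase i₀)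
      (by rw [hcardI]; omega) hnear hco B ?_ ?_ ?_
    · intro x hx i _
      obtain ⟨c, rfl⟩ := hline x hx
      rw [mulVec_smul, hBw, smul_zero, mulVec_zero, Pi.zero_apply]
    · intro h0
      apply hj₀
      have h1 := congrFun (congrFun h0 j₀) j₀
      rwa [hB, if_pos rfl] at h1
    · obtain ⟨i₁, hi₁⟩ : ∃ i₁ : Fin d, i₁ ≠ j₀ := by
        have : Nontrivial (Fin d) := Fin.nontrivial_iff_two_le.2 hd
        exact exists_ne j₀
      refine Matrix.det_eq_zero_of_row_eq_zero i₁ fun j => ?_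
      rw [hB, if_neg hi₁]
  have hNF : NumberField K := { to_charZero := inferInstance, to_finiteDimensional := inferInstance }
  have hcard : Fintype.card (Fin d) = Module.finrank ℚ K :=
    le_antisymm hli.fintype_card_le_finrank (by simpa using hK)
  have hne : Nonempty (Fin d) := ⟨⟨0, by omega⟩⟩
  obtain ⟨b, hb⟩ : ∃ b : Module.Basis (Fin d) ℚ K, ∀ j, b j = wK j :=
    ⟨basisOfLinearIndependentOfCardEqFinrank hli hcard, fun j => by
      simp [basisOfLinearIndependentOfCardEqFinrank]⟩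
  obtain ⟨θ, hθ⟩ := Field.exists_primitive_element ℚ K
  obtain ⟨A, hA⟩ : ∃ A : Matrix (Fin d) (Fin d) ℚ, ∀ j, ∑ k, A j k • wK k = θ * wK j := by
    refine ⟨fun j k => b.repr (θ * wK j) k, fun j => ?_⟩
    have h1 := b.sum_repr (θ * wK j)
    simp only [hb] at h1
    exact h1
  have hAw : (A.map (Rat.cast : ℚ → ℝ)) *ᵥ w = (θ : ℝ) • w := by
    funext j
    have h1 := congrArg (fun z : K => (z : ℝ)) (hA j)
    push_cast at h1
    rw [Pi.smul_apply, smul_eq_mul, ← hwKv j, ← h1, Matrix.mulVec, dotProduct]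
    refine Finset.sum_congr rfl fun k _ => ?_
    rw [Matrix.map_apply, Rat.smul_def, hwKv]
  refine ⟨A, ?_, ⟨(θ : ℝ), hAw⟩, ?_⟩
  · have hdet0 : (Matrix.scalar (Fin d) (θ : ℝ) - A.map (algebraMap ℚ ℝ)).det = 0 := by
      refine Matrix.exists_mulVec_eq_zero_iff.1 ⟨w, hw0, ?_⟩
      rw [Matrix.sub_mulVec, sub_eq_zero]
      have h2 : A.map (algebraMap ℚ ℝ) = A.map (Rat.cast : ℚ → ℝ) := rfl
      rw [h2, hAw]
      funext i
      simp [Matrix.mulVec, dotProduct, Matrix.scalar_apply, Matrix.diagonal_apply]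
    have hroot : Polynomial.aeval (θ : ℝ) A.charpoly = 0 := by
      rw [← Matrix.eval_charpoly, Matrix.charpoly_map, Polynomial.eval_map_algebraMap] at hdet0
      exact hdet0
    have hint : IsIntegral ℚ θ := Algebra.IsIntegral.isIntegral θ
    have hintR : IsIntegral ℚ (θ : ℝ) := hint.map K.val
    have hmin : minpoly ℚ (θ : ℝ) = minpoly ℚ θ := minpoly.algHom_eq K.val K.val.injective θ
    have hdeg : (minpoly ℚ θ).natDegree = d := by
      rw [← IntermediateField.adjoin.finrank hint, hθ, IntermediateField.finrank_top', ← hcard,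
        Fintype.card_fin]
    have heq := Polynomial.eq_of_monic_of_dvd_of_natDegree_le (minpoly.monic hintR)
      A.charpoly_monic (minpoly.dvd ℚ (θ : ℝ) hroot) (by
        rw [hmin, hdeg, Matrix.charpoly_natDegree_eq_dim, Fintype.card_fin])
    rw [heq]
    exact minpoly.irreducible hintR
  · intro x hx i hi
    obtain ⟨c, rfl⟩ := hline x hx
    rw [mulVec_smul, hAw, mulVec_smul, mulVec_smul, Pi.smul_apply, Pi.smul_apply,
      hw i (Finset.mem_erase.1 hi).1, smul_zero, smul_zero]


/-- If one of the forms is a multiple of a form with coefficients in a real number field of degree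
at most `n`, and the product is bounded away from zero near its kernel, the kernel is preserved by
a rational matrix with irreducible characteristic polynomial. -/
theorem exists_matrix_of_form (hd : 2 ≤ d) (h : Matrix (Fin d) (Fin d) ℝ) (hdet : h.det ≠ 0)
    (ν : ℝ) (hν : 0 < ν) (K : IntermediateField ℚ ℝ) [FiniteDimensional ℚ K]
    (hK : Module.finrank ℚ K ≤ d) (i₀ : Fin d) (s : ℝ) (hs : s ≠ 0) (hsK : ∀ j, s * h i₀ j ∈ K)
    (hnear : NearR h {i₀} ν) :
    ∃ A : Matrix (Fin d) (Fin d) ℚ, Irreducible A.charpoly ∧ Pres h {i₀} A := by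
  classical
  obtain ⟨wK, hwKv⟩ : ∃ wK : Fin d → K, ∀ j, ((wK j : K) : ℝ) = s * h i₀ j :=
    ⟨fun j => ⟨s * h i₀ j, hsK j⟩, fun j => rfl⟩
  have hw0 : (fun j => ((wK j : K) : ℝ)) ≠ 0 := by
    intro h0
    apply hdet
    refine Matrix.det_eq_zero_of_row_eq_zero i₀ fun j => ?_
    have h1 := congrFun h0 j
    simp only [Pi.zero_apply] at h1
    rw [hwKv] at h1
    exact (mul_eq_zero.1 h1).resolve_left hs
  have hli : LinearIndependent ℚ wK := by
    rw [Fintype.linearIndependent_iff]
    intro q hq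
    by_contra hcon
    -- an integer point in the kernel
    obtain ⟨N, hN⟩ : ∃ N : ℕ, N = ∏ k, (q k).den := ⟨_, rfl⟩
    have hN0 : (N : ℚ) ≠ 0 := by
      rw [hN]
      push_cast
      exact Finset.prod_ne_zero_iff.2 fun k _ => by exact_mod_cast (q k).den_ne_zero
    have hz : ∀ j, ∃ z : ℤ, (z : ℚ) = N * q j := by
      intro j
      refine ⟨(∏ k ∈ Finset.univ.erase j, ((q k).den : ℤ)) * (q j).num, ?_⟩
      have h1 : (N : ℚ) = (q j).den * ∏ k ∈ Finset.univ.erase j, ((q k).den : ℚ) := by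
        rw [hN]
        push_cast
        exact (Finset.mul_prod_erase _ _ (Finset.mem_univ j)).symm
      rw [h1]
      push_cast
      have h2 : ((q j).num : ℚ) = (q j).den * q j := by
        rw [mul_comm]; exact (Rat.mul_den_eq_num (q j)).symm
      rw [h2]
      ring
    choose z hz using hz
    have hz0 : z ≠ 0 := by
      intro h0
      apply hcon
      intro j
      have h1 := hz j
      rw [h0] at h1
      simp only [Pi.zero_apply, Int.cast_zero] at h1
      exact (mul_eq_zero.1 h1.symm).resolve_left hN0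
    have hval : ∑ j, h i₀ j * iR z j = 0 := by
      have h1 := congrArg (fun z : K => (z : ℝ)) hq
      simp only [ZeroMemClass.coe_zero] at h1
      have h2 : ∑ j, (q j : ℝ) * (s * h i₀ j) = 0 := by
        rw [← h1]
        push_cast
        refine Finset.sum_congr rfl fun j _ => ?_
        rw [Rat.smul_def, hwKv]
      have h3 : (s : ℝ) * ∑ j, h i₀ j * iR z j = (N : ℝ) * ∑ j, (q j : ℝ) * (s * h i₀ j) := by
        rw [Finset.mul_sum, Finset.mul_sum]
        refine Finset.sum_congr rfl fun j _ => ?_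
        have h4 : iR z j = (N : ℝ) * (q j : ℝ) := by
          have := congrArg (fun t : ℚ => (t : ℝ)) (hz j)
          push_cast at this
          exact this
        rw [h4]
        ring
      rw [h2, mul_zero] at h3
      exact (mul_eq_zero.1 h3).resolve_left hs
    obtain ⟨t, ht, hnt⟩ := hnear (∑ i, |∑ j, h i j * iR z j|) 0
    have h1 := hnt z hz0 (by
      intro i
      have h5 : |∑ j, h i j * iR z j| ≤ ∑ i, |∑ j, h i j * iR z j| :=
        Finset.single_le_sum (f := fun i => |∑ j, h i j * iR z j|) (fun _ _ => abs_nonneg _)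
          (Finset.mem_univ i)
      by_cases hi : i = i₀
      · rw [hi, hval, abs_zero, mul_zero]
        exact Finset.sum_nonneg fun _ _ => abs_nonneg _
      · refine le_trans ?_ h5
        refine mul_le_of_le_one_left (abs_nonneg _) ?_
        rw [Real.exp_le_one_iff, rayI, if_neg (by rwa [Finset.mem_singleton])]
        have h6 : (0 : ℝ) ≤ (({i₀} : Finset (Fin d)).card : ℝ) := Nat.cast_nonneg _
        nlinarith)
    rw [FF, Finset.prod_eq_zero (Finset.mem_univ i₀) hval, abs_zero] at h1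
    exact absurd hν (not_lt.2 h1)
  have hNF : NumberField K := { to_charZero := inferInstance, to_finiteDimensional := inferInstance }
  have hcard : Fintype.card (Fin d) = Module.finrank ℚ K :=
    le_antisymm hli.fintype_card_le_finrank (by simpa using hK)
  have hne : Nonempty (Fin d) := ⟨⟨0, by omega⟩⟩
  obtain ⟨b, hb⟩ : ∃ b : Module.Basis (Fin d) ℚ K, ∀ j, b j = wK j :=
    ⟨basisOfLinearIndependentOfCardEqFinrank hli hcard, fun j => by
      simp [basisOfLinearIndependentOfCardEqFinrank]⟩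
  obtain ⟨θ, hθ⟩ := Field.exists_primitive_element ℚ K
  obtain ⟨A, hA⟩ : ∃ A : Matrix (Fin d) (Fin d) ℚ, ∀ k, ∑ j, A j k • wK j = θ * wK k := by
    refine ⟨fun j k => b.repr (θ * wK k) j, fun k => ?_⟩
    have h1 := b.sum_repr (θ * wK k)
    simp only [hb] at h1
    exact h1
  have hAw : (fun j => ((wK j : K) : ℝ)) ᵥ* (A.map (Rat.cast : ℚ → ℝ)) =
      (θ : ℝ) • (fun j => ((wK j : K) : ℝ)) := by
    funext k
    have h1 := congrArg (fun z : K => (z : ℝ)) (hA k)
    push_cast at h1
    rw [Pi.smul_apply, smul_eq_mul, ← h1, Matrix.vecMul, dotProduct]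
    refine Finset.sum_congr rfl fun j _ => ?_
    rw [Matrix.map_apply, Rat.smul_def, mul_comm]
  refine ⟨A, ?_, ?_⟩
  · have hdet0 : (Matrix.scalar (Fin d) (θ : ℝ) - A.map (algebraMap ℚ ℝ)).det = 0 := by
      refine Matrix.exists_vecMul_eq_zero_iff.1 ⟨_, hw0, ?_⟩
      rw [Matrix.vecMul_sub, sub_eq_zero]
      have h2 : A.map (algebraMap ℚ ℝ) = A.map (Rat.cast : ℚ → ℝ) := rfl
      rw [h2, hAw]
      funext i
      simp [Matrix.vecMul, dotProduct, Matrix.scalar_apply, Matrix.diagonal_apply, mul_comm]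
    have hroot : Polynomial.aeval (θ : ℝ) A.charpoly = 0 := by
      rw [← Matrix.eval_charpoly, Matrix.charpoly_map, Polynomial.eval_map_algebraMap] at hdet0
      exact hdet0
    have hint : IsIntegral ℚ θ := Algebra.IsIntegral.isIntegral θ
    have hintR : IsIntegral ℚ (θ : ℝ) := hint.map K.val
    have hmin : minpoly ℚ (θ : ℝ) = minpoly ℚ θ := minpoly.algHom_eq K.val K.val.injective θ
    have hdeg : (minpoly ℚ θ).natDegree = d := by
      rw [← IntermediateField.adjoin.finrank hint, hθ, IntermediateField.finrank_top', ← hcard,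
        Fintype.card_fin]
    have heq := Polynomial.eq_of_monic_of_dvd_of_natDegree_le (minpoly.monic hintR)
      A.charpoly_monic (minpoly.dvd ℚ (θ : ℝ) hroot) (by
        rw [hmin, hdeg, Matrix.charpoly_natDegree_eq_dim, Fintype.card_fin])
    rw [heq]
    exact minpoly.irreducible hintR
  · intro x hx i hi
    rw [Finset.mem_singleton] at hi
    rw [hi]
    have h0 := hx i₀ (Finset.mem_singleton_self i₀)
    have h1 : (fun j => ((wK j : K) : ℝ)) ⬝ᵥ x = 0 := by
      have : (fun j => ((wK j : K) : ℝ)) ⬝ᵥ x = s * (h *ᵥ x) i₀ := by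
        rw [Matrix.mulVec, dotProduct, dotProduct, Finset.mul_sum]
        refine Finset.sum_congr rfl fun j _ => ?_
        rw [hwKv]; ring
      rw [this, h0, mul_zero]
    have h2 : s * (h *ᵥ ((A.map (Rat.cast : ℚ → ℝ)) *ᵥ x)) i₀ =
        (fun j => ((wK j : K) : ℝ)) ⬝ᵥ ((A.map (Rat.cast : ℚ → ℝ)) *ᵥ x) := by
      have h3 : (h *ᵥ ((A.map (Rat.cast : ℚ → ℝ)) *ᵥ x)) i₀ =
          ∑ j, h i₀ j * ((A.map (Rat.cast : ℚ → ℝ)) *ᵥ x) j := rfl
      rw [h3, dotProduct, Finset.mul_sum]
      refine Finset.sum_congr rfl fun j _ => ?_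
      rw [hwKv]; ring
    rw [Matrix.dotProduct_mulVec, hAw, smul_dotProduct, h1, smul_zero] at h2
    exact (mul_eq_zero.1 h2).resolve_left hs


/-- in prime dimension the characteristic polynomial is irreducible -/
theorem irreducible_of_prime {n : ℕ} (hp : n.Prime) {h : Matrix (Fin n) (Fin n) ℝ}
    (hdet : h.det ≠ 0) {I : Finset (Fin n)} (hI0 : I.Nonempty)
    (hI1 : I ≠ Finset.univ) {A : Matrix (Fin n) (Fin n) ℚ} (hA : Pres h I A)
    (hAs : ∀ a : ℚ, A ≠ a • (1 : Matrix (Fin n) (Fin n) ℚ))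
    (ν : ℝ) (hν : 0 < ν) (hnear : NearR h I ν) :
    Irreducible A.charpoly := by
  refine Pool.Agent.K3h4.OC.charpoly_irreducible hp A hAs fun Q hQ => ?_
  have hIcard : I.card < n := by
    refine lt_of_le_of_ne (card_finset_fin_le I) fun h1 => hI1 ?_
    exact Finset.eq_univ_of_card I (by rw [h1, Fintype.card_fin])
  exact det_ne_zero_of_invariant h hdet ν hν I hIcard hnear
    (Pool.Agent.K3h4.OL.coprime_of_prime hp hI0 hI1) _
    (Pool.Agent.K3h4.OL.preserves_aeval (L := h) hA Q) hQ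

end Pool.Agent.K3h42.OC
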