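import Mathlib
import Pool.Agent.Y327.Full
import Pool.Agent.K3h42.OC.PConv
import Pool.Agent.K3h42.OC.PAlg
import Pool.Agent.K3h42.OC.PPoint

/-! # Lower limits along paths and unipotent modifications -/

open Filter Topology H715R2 Matrix
open Pool.Agent.K3h4.OC

namespace Pool.Agent.K3h42.OC

variable {d : ℕ} {ω : ℕ → Fin d → ℝ}

/-- unipotent modification of an algebraic system -/
def Mod (ω : ℕ → Fin d → ℝ) (g : Matrix (Fin d) (Fin d) ℝ) (ν : ℝ) : Prop :=
  ∃ u M : Matrix (Fin d) (Fin d) ℝ, PropInt M ∧ M.det ≠ 0 ∧ HasNu M ν ∧ g = u * M ∧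
    (∀ i, u i i = 1) ∧ ∀ k l, k ≠ l → u k l ≠ 0 → Below ω k l

/-- The path returns to a bounded distance of the ray of `I`. -/
def Vis (ω : ℕ → Fin d → ℝ) (I : Finset (Fin d)) : Prop :=
  ∃ C : ℝ, ∃ᶠ k in atTop, ∃ t : ℝ, 0 ≤ t ∧
      ∀ i, |ω k i - t * (if i ∈ I then (d : ℝ) - I.card else -(I.card : ℝ))| ≤ C

lemma nearR_of_vis {g : Matrix (Fin d) (Fin d) ℝ} {ν : ℝ} (hν : 0 < ν) (hL : LowP ω g ν)
    (I : Finset (Fin d)) (hV : Vis ω I) : NearR g I (ν / 2) := by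
  classical
  obtain ⟨C, hC⟩ := hV
  have hlt : ν / 2 < ν := by linarith
  by_cases h : ∀ T : ℝ, ∃ᶠ k in atTop, ∃ t : ℝ, T ≤ t ∧
      ∀ i, |ω k i - t * (if i ∈ I then (d : ℝ) - I.card else -(I.card : ℝ))| ≤ C
  · intro R T₀
    obtain ⟨K, hK⟩ := hL (ν / 2) hlt (Real.exp C * R)
    obtain ⟨k, ⟨t, ht, hkt⟩, hk⟩ := ((h T₀).and_eventually (eventually_ge_atTop K)).exists
    refine ⟨t, ht, fun p hp hpR => hK k hk p hp fun i => ?_⟩
    have h1 : Real.exp (ω k i) = Real.exp (ω k i - t * rayI I i) * Real.exp (t * rayI I i) := by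
      rw [← Real.exp_add]; congr 1; ring
    have h2 : Real.exp (ω k i - t * rayI I i) ≤ Real.exp C := by
      refine Real.exp_le_exp.2 (le_trans (le_abs_self _) ?_)
      exact hkt i
    have h3 : 0 ≤ Real.exp (t * rayI I i) * |(g *ᵥ iR p) i| := by positivity
    calc Real.exp (ω k i) * |(g *ᵥ iR p) i|
        = Real.exp (ω k i - t * rayI I i) * (Real.exp (t * rayI I i) * |(g *ᵥ iR p) i|) := by
          rw [h1]; ring
      _ ≤ Real.exp C * (Real.exp (t * rayI I i) * |(g *ᵥ iR p) i|) :=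
          mul_le_mul_of_nonneg_right h2 h3
      _ ≤ Real.exp C * R := mul_le_mul_of_nonneg_left (hpR i) (Real.exp_nonneg _)
  · push Not at h
    obtain ⟨T, hT⟩ := h
    have hnu : HasNu g (ν / 2) := by
      intro m hm
      set B : ℝ := ∑ i, |(g *ᵥ iR m) i| with hB
      obtain ⟨K, hK⟩ := hL (ν / 2) hlt (Real.exp (C + |T| * d) * B)
      obtain ⟨k, ⟨t, ht, hkt⟩, hkT, hkK⟩ :=
        (hC.and_eventually (hT.and (eventually_ge_atTop K))).exists
      refine hK k hkK m hm fun i => ?_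
      have htT : t ≤ T := by
        by_contra hcon
        obtain ⟨i, hi⟩ := hkT t (le_of_lt (not_le.1 hcon))
        exact absurd (hkt i) (not_le.2 hi)
      have hr : (if i ∈ I then (d : ℝ) - I.card else -(I.card : ℝ)) ≤ d := by
        split_ifs
        · have : (0 : ℝ) ≤ I.card := by positivity
          linarith
        · have : (0 : ℝ) ≤ I.card := by positivity
          have h2 : (0 : ℝ) ≤ d := by positivity
          linarith
      have h2 : ω k i ≤ C + |T| * d := by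
        have h3 := le_trans (le_abs_self _) (hkt i)
        have h4 : t * (if i ∈ I then (d : ℝ) - I.card else -(I.card : ℝ)) ≤ |T| * d := by
          have h5 : (0 : ℝ) ≤ d := by positivity
          calc t * (if i ∈ I then (d : ℝ) - I.card else -(I.card : ℝ)) ≤ t * d :=
                mul_le_mul_of_nonneg_left hr ht
            _ ≤ |T| * d := mul_le_mul_of_nonneg_right (htT.trans (le_abs_self _)) h5
        linarith
      calc Real.exp (ω k i) * |(g *ᵥ iR m) i| ≤ Real.exp (C + |T| * d) * |(g *ᵥ iR m) i| :=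
            mul_le_mul_of_nonneg_right (Real.exp_le_exp.2 h2) (abs_nonneg _)
        _ ≤ Real.exp (C + |T| * d) * B := by
            refine mul_le_mul_of_nonneg_left ?_ (Real.exp_nonneg _)
            exact Finset.single_le_sum (f := fun i => |(g *ᵥ iR m) i|)
              (fun i _ => abs_nonneg _) (Finset.mem_univ i)
    intro R T₀
    exact ⟨T₀, le_rfl, fun p hp _ => hnu p hp⟩

/-- the lower bound passes to the path -/
lemma lowP_of_hasNu {g : Matrix (Fin d) (Fin d) ℝ} {ν : ℝ} (hg : HasNu g ν) : LowP ω g ν :=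
  fun _ hν' _ => ⟨0, fun _ _ m hm _ => hν'.le.trans (hg m hm)⟩

theorem lowP_of_mod (hω : IsPath ω) {g : Matrix (Fin d) (Fin d) ℝ} {ν : ℝ} (h : Mod ω g ν) :
    LowP ω g ν := by
  obtain ⟨u, M, _, _, hM, hg, hu1, hu⟩ := h
  rw [hg]
  exact lowP_of_factor hω hu1 hu hM

theorem det_of_mod {g : Matrix (Fin d) (Fin d) ℝ} {ν : ℝ} (h : Mod ω g ν) :
    g.det ≠ 0 := by
  obtain ⟨u, M, _, hM, _, hg, hu1, hu⟩ := h
  rw [hg, Matrix.det_mul, det_u hu1 hu, one_mul]
  exact hM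

theorem propInt_of_mod (hd : 3 ≤ d) (hω : IsPath ω) {g : Matrix (Fin d) (Fin d) ℝ} {ν : ℝ}
    (hν : 0 < ν) (h : Mod ω g ν) {g' : Matrix (Fin d) (Fin d) ℝ} (hg' : g' ∈ LimP ω g) :
    PropInt g' := by
  obtain ⟨u, M, hP, hM, hnu, hg, hu1, hu⟩ := h
  rw [hg] at hg'
  exact algRow_closure hd hν hM hnu hP (LimP_closure hω (limP_of_factor hω hu1 hu hg'))

theorem mod_of_limit (hd : 3 ≤ d) (hω : IsPath ω) {g : Matrix (Fin d) (Fin d) ℝ}
    (hg : g.det ≠ 0) {ν : ℝ} (hν : 0 < ν) (hL : LowP ω g ν) {g' : Matrix (Fin d) (Fin d) ℝ}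
    (hg' : g' ∈ LimP ω g) (hP : PropInt g') : Mod ω g ν :=
  path_iso hd hω hg hν hL hg' hP

/-- a bounded below system with a modification is algebraic -/
theorem propInt_of_mod_self (hd : 3 ≤ d) (hω : IsPath ω) {g : Matrix (Fin d) (Fin d) ℝ}
    {ν : ℝ} (hν : 0 < ν) (hnu : HasNu g ν) (h : Mod ω g ν) : PropInt g := by
  have hg := det_of_mod h
  obtain ⟨g', hg'⟩ := LimP_nonempty (by omega) hω hg hν (lowP_of_hasNu hnu)
  by_contra hcon
  exact Pool.Agent.Y327.not_propInt_closure hd hg hν hnu hcon (LimP_closure hω hg')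
    (propInt_of_mod hd hω hν h hg')

/-- first part of the unconditional results -/
theorem mod_of_pres (hd : 3 ≤ d) (hω : IsPath ω) (A : Matrix (Fin d) (Fin d) ℚ)
    (hA : Irreducible A.charpoly) (g : Matrix (Fin d) (Fin d) ℝ) (hg : g.det ≠ 0)
    {ν : ℝ} (hν : 0 < ν) (hL : LowP ω g ν)
    (I : Finset (Fin d)) (hI1 : I ≠ Finset.univ) (hI0 : I.Nonempty) (hinv : Pres g I A)
    (hcond : Nat.Coprime I.card d ∨
      ∀ B C : Matrix (Fin d) (Fin d) ℚ, Pres g I B → Pres g I C → B * C = C * B)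
    (hV : Vis ω I) : Mod ω g ν := by
  obtain ⟨C, hC⟩ := hV
  have hIcard : I.card < d := by
    refine lt_of_le_of_ne (card_finset_fin_le I) fun h1 => hI1 ?_
    exact Finset.eq_univ_of_card I (by rw [h1, Fintype.card_fin])
  obtain ⟨h, hh, hP⟩ := exists_limit_propInt hd hω A hA g hg hν hL I hIcard hI0 hinv hcond C hC
  exact mod_of_limit hd hω hg hν hL hh hP

theorem mod_of_prime (hd : 3 ≤ d) (hp : d.Prime) (hω : IsPath ω) (A : Matrix (Fin d) (Fin d) ℚ)
    (hA : ∀ a : ℚ, A ≠ a • (1 : Matrix (Fin d) (Fin d) ℚ))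
    (g : Matrix (Fin d) (Fin d) ℝ) (hg : g.det ≠ 0)
    {ν : ℝ} (hν : 0 < ν) (hL : LowP ω g ν)
    (I : Finset (Fin d)) (hI1 : I ≠ Finset.univ) (hI0 : I.Nonempty) (hinv : Pres g I A)
    (hV : Vis ω I) : Mod ω g ν := by
  have hirr := irreducible_of_prime hp hg hI0 hI1 hinv hA (ν / 2) (by linarith)
    (nearR_of_vis hν hL I hV)
  exact mod_of_pres hd hω A hirr g hg hν hL I hI1 hI0 hinv
    (Or.inl (Pool.Agent.K3h4.OL.coprime_of_prime hp hI0 hI1)) hV

theorem mod_of_form (hd : 3 ≤ d) (hω : IsPath ω)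
    (g : Matrix (Fin d) (Fin d) ℝ) (hg : g.det ≠ 0)
    {ν : ℝ} (hν : 0 < ν) (hL : LowP ω g ν) (K : IntermediateField ℚ ℝ)
    (hfin : FiniteDimensional ℚ K) (hK : Module.finrank ℚ K ≤ d) (i₀ : Fin d) (s : ℝ)
    (hs : s ≠ 0) (hsK : ∀ j, s * g i₀ j ∈ K)
    (hV : Vis ω {i₀}) : Mod ω g ν := by
  obtain ⟨A, hA, hinv⟩ := exists_matrix_of_form (by omega) g hg (ν / 2) (by linarith) K hK i₀ s hs
    hsK (nearR_of_vis hν hL _ hV)
  refine mod_of_pres hd hω A hA g hg hν hL {i₀} ?_ (Finset.singleton_nonempty _) hinv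
    (Or.inl (by rw [Finset.card_singleton]; exact Nat.coprime_one_left _)) hV
  intro h
  have h1 := congrArg Finset.card h
  rw [Finset.card_singleton, Finset.card_univ, Fintype.card_fin] at h1
  omega

theorem mod_of_point (hd : 3 ≤ d) (hω : IsPath ω)
    (g : Matrix (Fin d) (Fin d) ℝ) (hg : g.det ≠ 0)
    {ν : ℝ} (hν : 0 < ν) (hL : LowP ω g ν) (K : IntermediateField ℚ ℝ)
    (hfin : FiniteDimensional ℚ K) (hK : Module.finrank ℚ K ≤ d) (i₀ : Fin d)
    (w : Fin d → ℝ) (hw0 : w ≠ 0) (hwK : ∀ j, w j ∈ K)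
    (hw : ∀ i, i ≠ i₀ → (g *ᵥ w) i = 0)
    (hV : Vis ω (Finset.univ.erase i₀)) : Mod ω g ν := by
  obtain ⟨A, hA, -, hinv⟩ := exists_matrix_of_point (by omega) g hg (ν / 2) (by linarith) K hK
    w hw0 hwK i₀ (nearR_of_vis hν hL _ hV) hw
  have hcard : (Finset.univ.erase i₀).card = d - 1 := by
    rw [Finset.card_erase_of_mem (Finset.mem_univ _), Finset.card_univ, Fintype.card_fin]
  refine mod_of_pres hd hω A hA g hg hν hL (Finset.univ.erase i₀) ?_ ?_ hinv (Or.inl ?_) hV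
  · intro h
    have h1 := congrArg Finset.card h
    rw [hcard, Finset.card_univ, Fintype.card_fin] at h1
    omega
  · rw [← Finset.card_pos, hcard]
    omega
  · rw [hcard]
    have h1 : Nat.Coprime (d - 1) (d - 1 + 1) :=
      Nat.coprime_self_add_right.2 (Nat.coprime_one_right _)
    rwa [Nat.sub_add_cancel (by omega : 1 ≤ d)] at h1

end Pool.Agent.K3h42.OC
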